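import Pool.Agent.Helper65.PF.Main

/-! the adjugate of the powers of a Pisot matrix of size 3 -/

set_option autoImplicit false

namespace Pool.Agent.Helper65.DG
open Pool.Agent.H812R2.PI
open scoped BigOperators

theorem col_bound {M : Matrix (Fin 3) (Fin 3) ℤ} (P : PD M) :
    ∃ C : ℝ, 0 ≤ C ∧ ∀ k ≥ 1, ∀ i j : Fin 3, ∃ S : ℝ,
      S = ∑ l, ((M ^ k) l i : ℝ) ∧ |((M ^ k) j i : ℝ) - S * P.u j| ≤ C * P.rho ^ k := by
  classical
  refine ⟨P.c * ∑ i : Fin 3, P.N (fun j => if j = i then 1 else 0), ?_, ?_⟩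
  · exact mul_nonneg P.c_pos.le (Finset.sum_nonneg fun i _ => P.N_nonneg _)
  · intro k hk i j
    refine ⟨_, rfl, ?_⟩
    obtain ⟨x, hx⟩ : ∃ x : Fin 3 → ℝ, x = fun j => if j = i then 1 else 0 := ⟨_, rfl⟩
    have h1 : act (M ^ k) x = fun l => ((M ^ k) l i : ℝ) := by
      funext l
      unfold act
      rw [hx, Finset.sum_eq_single i]
      · simp
      · intro b _ hb
        simp [hb]
      · intro h
        exact absurd (Finset.mem_univ i) h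
    have h2 := (P.pow k hk).N_act x
    have h3 := P.le_cN (act (M ^ k) x) j
    rw [h1] at h3 h2
    refine h3.trans ?_
    have h4 : P.N x ≤ ∑ i : Fin 3, P.N (fun j => if j = i then 1 else 0) := by
      rw [hx]
      exact Finset.single_le_sum (f := fun i : Fin 3 => P.N (fun j => if j = i then 1 else 0))
        (fun i _ => P.N_nonneg _) (Finset.mem_univ i)
    have h5 : P.N (fun l => ((M ^ k) l i : ℝ)) ≤ P.rho ^ k * P.N x := h2
    calc P.c * P.N (fun l => ((M ^ k) l i : ℝ)) ≤ P.c * (P.rho ^ k * P.N x) :=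
          mul_le_mul_of_nonneg_left h5 P.c_pos.le
      _ ≤ P.c * (P.rho ^ k * ∑ i : Fin 3, P.N (fun j => if j = i then 1 else 0)) :=
          mul_le_mul_of_nonneg_left (mul_le_mul_of_nonneg_left h4
            (pow_nonneg P.rho_nonneg _)) P.c_pos.le
      _ = _ := by ring

theorem sum_bound {M : Matrix (Fin 3) (Fin 3) ℤ} (P : PD M) :
    ∃ C : ℝ, 0 ≤ C ∧ ∀ k ≥ 1, ∀ i : Fin 3, |∑ l, ((M ^ k) l i : ℝ)| ≤ C * P.lam ^ k := by
  obtain ⟨C1, hC1, h1⟩ := col_bound P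
  obtain ⟨e, he⟩ : ∃ e : ℝ, e = ∑ j, P.ell j * P.u j := ⟨_, rfl⟩
  have hepos : 0 < e := by
    rw [he]
    exact Finset.sum_pos (fun i _ => mul_pos (P.ell_pos i) (P.u_pos i)) Finset.univ_nonempty
  obtain ⟨E, hE⟩ : ∃ E : ℝ, E = ∑ j, P.ell j := ⟨_, rfl⟩
  have hEle : ∀ i, P.ell i ≤ E := fun i => by
    rw [hE]
    exact Finset.single_le_sum (fun j _ => (P.ell_pos j).le) (Finset.mem_univ i)
  have hE0 : 0 ≤ E := by
    rw [hE]
    exact Finset.sum_nonneg fun j _ => (P.ell_pos j).le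
  refine ⟨(E + C1 * E) / e, div_nonneg (add_nonneg hE0 (mul_nonneg hC1 hE0)) hepos.le, ?_⟩
  intro k hk i
  obtain ⟨S, hS⟩ : ∃ S : ℝ, S = ∑ l, ((M ^ k) l i : ℝ) := ⟨_, rfl⟩
  rw [← hS]
  have h2 : ∑ j, P.ell j * ((M ^ k) j i : ℝ) = P.lam ^ k * P.ell i := (P.pow k hk).ell_M i
  have h3 : ∀ j, |((M ^ k) j i : ℝ) - S * P.u j| ≤ C1 := by
    intro j
    obtain ⟨S', hS', h⟩ := h1 k hk i j
    rw [← hS] at hS'
    rw [hS'] at h
    refine h.trans ?_
    have : P.rho ^ k ≤ 1 := pow_le_one₀ P.rho_nonneg P.rho_lt.le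
    nlinarith
  have h4 : S * e = P.lam ^ k * P.ell i - ∑ j, P.ell j * (((M ^ k) j i : ℝ) - S * P.u j) := by
    rw [← h2, he, Finset.mul_sum, ← Finset.sum_sub_distrib]
    refine Finset.sum_congr rfl fun j _ => ?_
    ring
  have h5 : |∑ j, P.ell j * (((M ^ k) j i : ℝ) - S * P.u j)| ≤ C1 * E := by
    refine (Finset.abs_sum_le_sum_abs _ _).trans ?_
    rw [hE, Finset.mul_sum]
    refine Finset.sum_le_sum fun j _ => ?_
    rw [abs_mul, abs_of_pos (P.ell_pos j), mul_comm C1]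
    exact mul_le_mul_of_nonneg_left (h3 j) (P.ell_pos j).le
  have hl : 1 ≤ P.lam ^ k := one_le_pow₀ P.lam_gt.le
  have h6 : |S * e| ≤ (E + C1 * E) * P.lam ^ k := by
    rw [h4]
    refine (abs_sub _ _).trans ?_
    rw [abs_mul, abs_of_pos (by positivity : 0 < P.lam ^ k), abs_of_pos (P.ell_pos i)]
    have h7 := mul_le_mul_of_nonneg_left (hEle i) (by positivity : 0 ≤ P.lam ^ k)
    have h8 : C1 * E ≤ C1 * E * P.lam ^ k := le_mul_of_one_le_right (mul_nonneg hC1 hE0) hl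
    nlinarith
  rw [abs_mul, abs_of_pos hepos] at h6
  rw [div_mul_eq_mul_div, le_div_iff₀ hepos]
  exact h6

theorem minor_le {C1 C2 a r u1 u2 S1 S2 x11 x12 x21 x22 : ℝ} (hC1 : 0 ≤ C1) (hC2 : 0 ≤ C2)
    (ha : 1 ≤ a) (hr : 0 ≤ r) (hr1 : r ≤ 1) (hu1 : |u1| ≤ 1) (hu2 : |u2| ≤ 1)
    (hS1 : |S1| ≤ C2 * a) (hS2 : |S2| ≤ C2 * a)
    (h11 : |x11 - S1 * u1| ≤ C1 * r) (h21 : |x21 - S1 * u2| ≤ C1 * r)
    (h12 : |x12 - S2 * u1| ≤ C1 * r) (h22 : |x22 - S2 * u2| ≤ C1 * r) :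
    |x11 * x22 - x12 * x21| ≤ (4 * C1 * C2 + 2 * C1 * C1) * (a * r) := by
  obtain ⟨r11, e11⟩ : ∃ r11, r11 = x11 - S1 * u1 := ⟨_, rfl⟩
  obtain ⟨r21, e21⟩ : ∃ r21, r21 = x21 - S1 * u2 := ⟨_, rfl⟩
  obtain ⟨r12, e12⟩ : ∃ r12, r12 = x12 - S2 * u1 := ⟨_, rfl⟩
  obtain ⟨r22, e22⟩ : ∃ r22, r22 = x22 - S2 * u2 := ⟨_, rfl⟩
  rw [← e11] at h11
  rw [← e21] at h21
  rw [← e12] at h12
  rw [← e22] at h22
  have hx : x11 * x22 - x12 * x21 = S1 * u1 * r22 + S2 * u2 * r11 + r11 * r22 -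
      (S2 * u1 * r21 + S1 * u2 * r12 + r12 * r21) := by
    have e1 : x11 = r11 + S1 * u1 := by rw [e11]; ring
    have e2 : x21 = r21 + S1 * u2 := by rw [e21]; ring
    have e3 : x12 = r12 + S2 * u1 := by rw [e12]; ring
    have e4 : x22 = r22 + S2 * u2 := by rw [e22]; ring
    rw [e1, e2, e3, e4]; ring
  have key : ∀ S u t : ℝ, |S| ≤ C2 * a → |u| ≤ 1 → |t| ≤ C1 * r →
      |S * u * t| ≤ C1 * C2 * (a * r) := by
    intro S u t hS hu ht
    rw [abs_mul, abs_mul]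
    have h1 : |S| * |u| ≤ C2 * a * 1 :=
      mul_le_mul hS hu (abs_nonneg _) (by positivity)
    have h2 : |S| * |u| * |t| ≤ C2 * a * 1 * (C1 * r) :=
      mul_le_mul h1 ht (abs_nonneg _) (by positivity)
    linarith
  have key2 : ∀ s t : ℝ, |s| ≤ C1 * r → |t| ≤ C1 * r → |s * t| ≤ C1 * C1 * (a * r) := by
    intro s t hs ht
    rw [abs_mul]
    have h1 : |s| * |t| ≤ C1 * r * (C1 * r) := mul_le_mul hs ht (abs_nonneg _) (by positivity)
    have h2 : r * r ≤ a * r := mul_le_mul_of_nonneg_right (hr1.trans ha) hr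
    have h3 : C1 * C1 * (r * r) ≤ C1 * C1 * (a * r) :=
      mul_le_mul_of_nonneg_left h2 (mul_nonneg hC1 hC1)
    linarith
  have k1 := abs_le.1 (key S1 u1 r22 hS1 hu1 h22)
  have k2 := abs_le.1 (key S2 u2 r11 hS2 hu2 h11)
  have k3 := abs_le.1 (key2 r11 r22 h11 h22)
  have k4 := abs_le.1 (key S2 u1 r21 hS2 hu1 h21)
  have k5 := abs_le.1 (key S1 u2 r12 hS1 hu2 h12)
  have k6 := abs_le.1 (key2 r12 r21 h12 h21)
  rw [hx, abs_le]
  constructor
  · linarith [k1.1, k2.1, k3.1, k4.2, k5.2, k6.2]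
  · linarith [k1.2, k2.2, k3.2, k4.1, k5.1, k6.1]

theorem adj_small {M : Matrix (Fin 3) (Fin 3) ℤ} (P : PD M) (ε : ℝ) (hε : 0 < ε) :
    ∃ k ≥ 1, ∀ l m : Fin 3, |(((M ^ k).adjugate l m : ℤ) : ℝ)| ≤ ε * P.lam ^ k := by
  obtain ⟨C1, hC1, h1⟩ := col_bound P
  obtain ⟨C2, hC2, h2⟩ := sum_bound P
  obtain ⟨C3, hC3⟩ : ∃ C3 : ℝ, C3 = 4 * C1 * C2 + 2 * C1 * C1 := ⟨_, rfl⟩
  have hC30 : 0 ≤ C3 := by rw [hC3]; positivity
  obtain ⟨k, hk⟩ := exists_pow_lt_of_lt_one (show (0:ℝ) < ε / (C3 + 1) by positivity) P.rho_lt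
  refine ⟨k + 1, by omega, ?_⟩
  have hu : ∀ i, |P.u i| ≤ 1 := fun i => by
    rw [abs_of_pos (P.u_pos i), ← P.u_sum]
    exact Finset.single_le_sum (fun j _ => (P.u_pos j).le) (Finset.mem_univ i)
  have hrk : P.rho ^ (k + 1) ≤ P.rho ^ k :=
    pow_le_pow_of_le_one P.rho_nonneg P.rho_lt.le (by omega)
  have hlam : 1 ≤ P.lam ^ (k + 1) := one_le_pow₀ P.lam_gt.le
  have key : ∀ p r q s : Fin 3, |((M ^ (k + 1)) p q : ℝ) * ((M ^ (k + 1)) r s : ℝ) -
      ((M ^ (k + 1)) p s : ℝ) * ((M ^ (k + 1)) r q : ℝ)| ≤ ε * P.lam ^ (k + 1) := by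
    intro p r q s
    obtain ⟨S1, e1, g11⟩ := h1 (k + 1) (by omega) q p
    obtain ⟨S1', e1', g21⟩ := h1 (k + 1) (by omega) q r
    obtain ⟨S2, e2, g12⟩ := h1 (k + 1) (by omega) s p
    obtain ⟨S2', e2', g22⟩ := h1 (k + 1) (by omega) s r
    rw [← e1] at e1'
    rw [← e2] at e2'
    rw [e1'] at g21
    rw [e2'] at g22
    have hS1 := h2 (k + 1) (by omega) q
    have hS2 := h2 (k + 1) (by omega) s
    rw [← e1] at hS1
    rw [← e2] at hS2
    have h := minor_le (u1 := P.u p) (u2 := P.u r) hC1 hC2 hlam (pow_nonneg P.rho_nonneg (k+1))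
      (pow_le_one₀ P.rho_nonneg P.rho_lt.le) (hu p) (hu r) hS1 hS2 g11 g21 g12 g22
    refine h.trans ?_
    rw [← hC3]
    have h3 : C3 * P.rho ^ (k + 1) ≤ ε := by
      have h4 : C3 * P.rho ^ (k + 1) ≤ C3 * (ε / (C3 + 1)) :=
        mul_le_mul_of_nonneg_left (hrk.trans hk.le) hC30
      have h5 : C3 * (ε / (C3 + 1)) ≤ ε := by
        rw [mul_div_assoc', div_le_iff₀ (by positivity)]
        nlinarith
      linarith
    calc C3 * (P.lam ^ (k + 1) * P.rho ^ (k + 1)) = C3 * P.rho ^ (k + 1) * P.lam ^ (k + 1) := by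
          ring
      _ ≤ ε * P.lam ^ (k + 1) := mul_le_mul_of_nonneg_right h3 (by positivity)
  intro l m
  have h := Matrix.adjugate_fin_three (M ^ (k + 1))
  rw [h]
  fin_cases l <;> fin_cases m <;> simp <;> push_cast
  · exact key 1 2 1 2
  · have := key 0 2 1 2
    rw [← abs_neg] at this
    refine le_of_eq_of_le ?_ this
    congr 1 <;> ring
  · have := key 0 1 1 2
    refine le_of_eq_of_le ?_ this
    congr 1 <;> ring
  · have := key 1 2 0 2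
    rw [← abs_neg] at this
    refine le_of_eq_of_le ?_ this
    congr 1 <;> ring
  · have := key 0 2 0 2
    refine le_of_eq_of_le ?_ this
    congr 1 <;> ring
  · have := key 0 1 0 2
    rw [← abs_neg] at this
    refine le_of_eq_of_le ?_ this
    congr 1 <;> ring
  · have := key 1 2 0 1
    refine le_of_eq_of_le ?_ this
    congr 1 <;> ring
  · have := key 0 2 0 1
    rw [← abs_neg] at this
    refine le_of_eq_of_le ?_ this
    congr 1 <;> ring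
  · have := key 0 1 0 1
    refine le_of_eq_of_le ?_ this
    congr 1 <;> ring

end Pool.Agent.Helper65.DG
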