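import Pool.Agent.Helper65.DG.Sound
import Pool.Agent.Helper65.DG.LA

/-! abelianisation of the local rules -/

set_option autoImplicit false

namespace Pool.Agent.Helper65.DG
open Pool.Agent.H812R2.PI
open scoped BigOperators

section
variable {R : Type*} [AddCommMonoid R]

def Mv (e : Fin 8) (x : Fin 3 → R) (y : Fin 3) : R :=
  x (pY e y) + if y = iY e then x (pY e (jY e)) else 0

def MvP : List (Fin 8) → (Fin 3 → R) → (Fin 3 → R)
  | [], x => x
  | e :: p, x => Mv e (MvP p x)

theorem Mv_add (e : Fin 8) (x x' : Fin 3 → R) : Mv e (x + x') = Mv e x + Mv e x' := by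
  funext y
  simp only [Mv, Pi.add_apply]
  split_ifs
  · exact add_add_add_comm _ _ _ _
  · simp

end

def Mm (e : Fin 8) : Matrix (Fin 3) (Fin 3) ℤ := fun y c =>
  (if c = pY e y then 1 else 0) + if y = iY e ∧ c = pY e (jY e) then 1 else 0

def MP : List (Fin 8) → Matrix (Fin 3) (Fin 3) ℤ
  | [] => 1
  | e :: p => Mm e * MP p

theorem Mm_act (e : Fin 8) (x : Fin 3 → ℝ) : act (Mm e) x = Mv e x := by
  funext y
  unfold act Mm Mv
  push_cast
  simp only [add_mul, Finset.sum_add_distrib, ite_mul, one_mul, zero_mul, Finset.sum_ite_eq',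
    Finset.mem_univ, if_true]
  congr 1
  by_cases h : y = iY e
  · simp [h]
  · simp [h]

theorem Mm_mulVec (e : Fin 8) (x : Fin 3 → ℤ) : (Mm e).mulVec x = Mv e x := by
  funext y
  unfold Matrix.mulVec dotProduct Mm Mv
  simp only [add_mul, Finset.sum_add_distrib, ite_mul, one_mul, zero_mul, Finset.sum_ite_eq',
    Finset.mem_univ, if_true]
  congr 1
  by_cases h : y = iY e
  · simp [h]
  · simp [h]

theorem act_mul' (M N : Matrix (Fin 3) (Fin 3) ℤ) (x : Fin 3 → ℝ) :
    act (M * N) x = act M (act N x) := by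
  funext i
  unfold act
  simp only [Matrix.mul_apply, Finset.mul_sum]
  push_cast
  simp only [Finset.sum_mul]
  rw [Finset.sum_comm]
  refine Finset.sum_congr rfl fun j _ => Finset.sum_congr rfl fun k _ => ?_
  ring

theorem MP_act (p : List (Fin 8)) (x : Fin 3 → ℝ) : act (MP p) x = MvP p x := by
  induction p generalizing x with
  | nil =>
    funext i
    simp [act, MP, MvP, Matrix.one_apply]
  | cons e p ih => rw [MP, act_mul', ih, Mm_act]; rfl

theorem MP_mulVec (p : List (Fin 8)) (x : Fin 3 → ℤ) : (MP p).mulVec x = MvP p x := by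
  induction p generalizing x with
  | nil => simp [MP, MvP]
  | cons e p ih => rw [MP, ← Matrix.mulVec_mulVec, ih, Mm_mulVec]; rfl

theorem MP_append (p r : List (Fin 8)) : MP (p ++ r) = MP p * MP r := by
  induction p with
  | nil => simp [MP]
  | cons e p ih => rw [List.cons_append, MP, MP, ih, Matrix.mul_assoc]

/-- `k` copies of a path -/
def rp (w : List (Fin 8)) : ℕ → List (Fin 8)
  | 0 => []
  | k + 1 => w ++ rp w k

theorem MP_rp (w : List (Fin 8)) (k : ℕ) : MP (rp w k) = MP w ^ k := by
  induction k with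
  | zero => simp [rp, MP]
  | succ k ih => rw [rp, MP_append, ih, pow_succ']

theorem Pth_append {p r : List (Fin 8)} {q q' q'' : ℕ} (h : Pth q p q') (h' : Pth q' r q'') :
    Pth q (p ++ r) q'' := by
  induction p generalizing q with
  | nil =>
    have : q = q' := h
    rw [this]
    exact h'
  | cons e p ih => exact ⟨h.1, ih h.2⟩

theorem Pth_rp {w : List (Fin 8)} {q : ℕ} (h : Pth q w q) (k : ℕ) : Pth q (rp w k) q := by
  induction k with
  | zero => exact rfl
  | succ k ih => exact Pth_append h ih

theorem rp_add (w : List (Fin 8)) (a b : ℕ) : rp w (a + b) = rp w a ++ rp w b := by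
  induction a with
  | zero => simp [rp]
  | succ a ih => rw [Nat.succ_add, rp, rp, ih, List.append_assoc]

/-! letters as vectors -/

def lv (x : A) (y : Fin 3) : ℤ :=
  if x.val = y.val + 1 then 1 else if x.val + (y.val + 1) = 7 then -1 else 0

def abl (l : List A) (y : Fin 3) : ℤ := (l.map fun x => lv x y).sum

def kap (e : Fin 8) (a b : A) (y : Fin 3) : ℤ :=
  if y = iY e then
    (if eK e = 0 ∧ ((a.val = eI e ∧ b.val = eJ e) ∨ (a.val + eJ e = 7 ∧ b.val + eI e = 7))
     then -1 else
     if eK e = 1 ∧ ((a.val = eJ e ∧ b.val = eI e) ∨ (a.val + eI e = 7 ∧ b.val + eJ e = 7))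
     then 1 else 0) else 0

theorem chk_ab : ∀ e a x b : Fin 8, ∀ y : Fin 3,
    Mv e (abl (out e a x b)) y = lv x y + (kap e x b y - kap e a x y) := by decide +kernel

theorem abl_append (l r : List A) : abl (l ++ r) = abl l + abl r := by
  funext y
  simp [abl]

theorem abl_cons (x : A) (r : List A) (y : Fin 3) : abl (x :: r) y = lv x y + abl r y := by
  simp [abl]

theorem ab_emit (e : Fin 8) (y : Fin 3) (r : List A) (a b : A) :
    ∃ c d, Mv e (abl (emit e a b r)) y =
      abl (b :: r) y - lv d y + kap e c d y - kap e a b y := by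
  induction r generalizing a b with
  | nil =>
    refine ⟨a, b, ?_⟩
    simp [emit, abl, Mv]
  | cons z r ih =>
    obtain ⟨c, d, h⟩ := ih b z
    refine ⟨c, d, ?_⟩
    simp only [emit]
    rw [abl_append, Mv_add, Pi.add_apply, h, chk_ab, abl_cons b]
    ring

theorem lv_le (x : A) (y : Fin 3) : |lv x y| ≤ 1 := by
  unfold lv
  split_ifs <;> simp

theorem kap_le (e : Fin 8) (a b : A) (y : Fin 3) : |kap e a b y| ≤ 1 := by
  unfold kap
  split_ifs <;> simp

theorem ab_stp (e : Fin 8) (u : List A) (y : Fin 3) :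
    |Mv e (abl (stp e u)) y - abl u y| ≤ 4 := by
  match u with
  | [] => simp [stp, abl, Mv]
  | [a] =>
    have := abs_le.1 (lv_le a y)
    simp [stp, abl, Mv]
    rw [abs_le]
    constructor <;> linarith [this.1, this.2]
  | a :: b :: r =>
    obtain ⟨c, d, h⟩ := ab_emit e y r a b
    rw [stp_two, h, abl_cons a]
    have h1 := abs_le.1 (lv_le a y)
    have h2 := abs_le.1 (lv_le d y)
    have h3 := abs_le.1 (kap_le e c d y)
    have h4 := abs_le.1 (kap_le e a b y)
    rw [abs_le]
    constructor <;> linarith [h1.1, h1.2, h2.1, h2.2, h3.1, h3.2, h4.1, h4.2]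

/-- iterated inner image -/
def stpP : List (Fin 8) → List A → List A
  | [], u => u
  | e :: p, u => stpP p (stp e u)

theorem ab_stpP (p : List (Fin 8)) : ∃ C : ℤ, 0 ≤ C ∧ ∀ (u : List A) (y : Fin 3),
    |MvP p (abl (stpP p u)) y - abl u y| ≤ C := by
  induction p with
  | nil => exact ⟨0, le_rfl, fun u y => by simp [MvP, stpP]⟩
  | cons e p ih =>
    obtain ⟨C, hC, h⟩ := ih
    refine ⟨4 + 2 * C, by linarith, fun u y => ?_⟩
    have h1 := abs_le.1 (ab_stp e u y)
    have h2 : |MvP (e :: p) (abl (stpP (e :: p) u)) y - Mv e (abl (stp e u)) y| ≤ 2 * C := by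
      simp only [MvP, stpP]
      unfold Mv
      have h3 := abs_le.1 (h (stp e u) (pY e y))
      have h4 := abs_le.1 (h (stp e u) (pY e (jY e)))
      rw [abs_le]
      split_ifs
      · constructor <;> linarith [h3.1, h3.2, h4.1, h4.2]
      · constructor <;> linarith [h3.1, h3.2, h4.1, h4.2]
    have h2' := abs_le.1 h2
    rw [abs_le]
    constructor <;> linarith [h1.1, h1.2, h2'.1, h2'.2]

theorem abl_le (u : List A) (y : Fin 3) : |abl u y| ≤ u.length := by
  induction u with
  | nil => simp [abl]
  | cons a u ih =>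
    rw [abl_cons]
    have h1 := abs_le.1 (lv_le a y)
    have h2 := abs_le.1 ih
    rw [List.length_cons]
    push_cast
    rw [abs_le]
    constructor <;> linarith [h1.1, h1.2, h2.1, h2.2]

/-! coherence -/

def sgn (s : ℕ) (y : Fin 3) : ℤ := if (SG s).testBit (y.val + 1) then 1 else -1

theorem chk_sgn : ∀ s : Fin 16, ∀ x : Fin 8, (SG s.val).testBit x.val = true →
    ∑ y, sgn s.val y * lv x y = 1 := by decide +kernel

/-- all letters allowed -/
def Al (s : ℕ) (u : List A) : Prop := ∀ x ∈ u, (SG s).testBit x.val = true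

theorem W3_al {s : ℕ} (hs : s < 16) (hr : sR s = 0) (r : List A) (a b c d : A)
    (h : W3 (CB s) a b c (d :: r) = true) : Al s (a :: b :: c :: d :: r) := by
  induction r generalizing a b c d with
  | nil =>
    simp only [W3, Bool.and_eq_true] at h
    have h1 := chk_C ⟨s, hs⟩ a b c d
    unfold cC at h1
    simp only [hr, h.1, Nat.beq, Bool.not_true, Bool.false_or, Bool.and_eq_true] at h1
    intro x hx
    simp only [List.mem_cons, List.not_mem_nil, or_false] at hx
    rcases hx with rfl | rfl | rfl | rfl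
    · exact h1.1.1.1
    · exact h1.1.1.2
    · exact h1.1.2
    · exact h1.2
  | cons z r ih =>
    rw [W3, Bool.and_eq_true] at h
    have h2 := ih b c d z h.2
    have h1 := chk_C ⟨s, hs⟩ a b c d
    unfold cC at h1
    simp only [hr, h.1, Nat.beq, Bool.not_true, Bool.false_or, Bool.and_eq_true] at h1
    intro x hx
    rcases List.mem_cons.1 hx with rfl | hx
    · exact h1.1.1.1
    · exact h2 x hx

theorem Win_al {s : ℕ} (hs : s < 16) (hr : sR s = 0) (u : List A) (hu : 4 ≤ u.length)
    (h : Win (CB s) u = true) : Al s u := by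
  match u, hu, h with
  | [], hu, _ => simp at hu
  | [_], hu, _ => simp at hu
  | [_, _], hu, _ => simp at hu
  | [_, _, _], hu, _ => simp at hu
  | a :: b :: c :: d :: r, _, h => exact W3_al hs hr r a b c d h

theorem Al_len {s : ℕ} (hs : s < 16) (u : List A) (h : Al s u) :
    (u.length : ℤ) ≤ ∑ y, |abl u y| := by
  have h1 : (u.length : ℤ) = ∑ y, sgn s y * abl u y := by
    induction u with
    | nil => simp [abl]
    | cons x u ih =>
      have h2 := chk_sgn ⟨s, hs⟩ x (h x List.mem_cons_self)
      have h3 := ih fun z hz => h z (List.mem_cons_of_mem _ hz)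
      simp only [abl_cons, mul_add, Finset.sum_add_distrib]
      rw [← h3]
      simp only at h2
      rw [h2, List.length_cons]
      push_cast
      ring
  rw [h1]
  refine Finset.sum_le_sum fun y _ => ?_
  have h2 := le_abs_self (abl u y)
  have h3 := neg_le_abs (abl u y)
  unfold sgn
  split_ifs
  · linarith
  · linarith

end Pool.Agent.Helper65.DG
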