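import Pool.Agent.Helper65.DG.Dom

/-! the finite checks -/

set_option autoImplicit false

namespace Pool.Agent.Helper65.DG

theorem chk_D : ∀ e a b c z : Fin 8, cD e a b c z = true := by decide +kernel

theorem chk_W : ∀ q : Fin 2, ∀ a b c z : Fin 8, cW q a b c z = true := by decide +kernel

theorem chk_C : ∀ s : Fin 16, ∀ a b c z : Fin 8, cC s a b c z = true := by decide +kernel

theorem chk_SG : ∀ s : Fin 16, ∀ x : Fin 8,
    ((SG s.val).testBit x.val && (SG s.val).testBit (7 - x.val)) = false ∧
    (SG s.val).testBit 0 = false ∧ (SG s.val).testBit 7 = false := by decide +kernel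

theorem chk_CB : ∀ s : Fin 16, CB s.val &&& SS (sQ s.val) = CB s.val := by decide +kernel

end Pool.Agent.Helper65.DG
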