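import Pool.Agent.Helper65.DG.Dom

/-! the finite checks, closure tables -/

set_option autoImplicit false

namespace Pool.Agent.Helper65.DG

theorem chk_R : ∀ e : Fin 8, cR e = true := by decide +kernel

end Pool.Agent.Helper65.DG
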