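import Pool.Agent.Helper65.DG.Ab

/-! coherent words cannot be free of slack for a long time -/

set_option autoImplicit false

namespace Pool.Agent.Helper65.DG
open Pool.Agent.H812R2.PI
open scoped BigOperators

def gw (q : ℕ) (y : Fin 3) : List A → ℕ
  | [] => 0
  | a :: r => gs q y a r

theorem tau_le (q : ℕ) (x y : A) (c : Fin 3) : tau q x y c ≤ 31 := by
  unfold tau
  omega

theorem pot_le (e : Fin 8) (c : Fin 3) (u : ℕ) : pot e c u ≤ 127 := by
  unfold pot
  omega

theorem gs_le (q : ℕ) (y : Fin 3) (r : List A) (a : A) : gs q y a r ≤ 31 * r.length := by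
  induction r generalizing a with
  | nil => simp [gs]
  | cons b r ih =>
    simp only [gs, List.length_cons]
    have h1 := tau_le q a b y
    have h2 := ih b
    omega

theorem gw_le (q : ℕ) (y : Fin 3) (u : List A) : gw q y u ≤ 31 * u.length := by
  match u with
  | [] => simp [gw]
  | a :: r =>
    have := gs_le q y r a
    simp only [gw, List.length_cons]
    omega

/-- no pads -/
def Int' (u : List A) : Prop := ∀ x ∈ u, x ≠ 0 ∧ x ≠ 7

theorem gs_ge {q : ℕ} (hq : q < 2) (r : List A) (a b c : A)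
    (h : W3 (SS q) a b c r = true) (hi : Int' (b :: c :: r)) :
    r.length ≤ gs q 0 b (c :: r) + gs q 1 b (c :: r) + gs q 2 b (c :: r) := by
  induction r generalizing a b c with
  | nil => simp
  | cons z r ih =>
    simp only [W3, Bool.and_eq_true] at h
    have h1 := ih b c z h.2 fun x hx => hi x (List.mem_cons_of_mem _ hx)
    have h2 := chk_W ⟨q, hq⟩ a b c z
    unfold cW at h2
    rw [h.1] at h2
    obtain ⟨b0, b7⟩ := hi b (by simp)
    obtain ⟨c0, c7⟩ := hi c (by simp)
    have e1 : (b == 0) = false := by simpa using b0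
    have e2 : (b == 7) = false := by simpa using b7
    have e3 : (c == 0) = false := by simpa using c0
    have e4 : (c == 7) = false := by simpa using c7
    simp only [e1, e2, e3, e4, Bool.not_true, Bool.false_or, Bool.and_eq_true] at h2
    have h3 : 0 < tau q b c 0 + tau q b c 1 + tau q b c 2 := by
      simpa [Nat.blt_eq] using h2.2
    simp only [gs, List.length_cons] at h1 ⊢
    omega

theorem gw_ge {q : ℕ} (hq : q < 2) (u : List A) (h : Win (SS q) u = true) (hi : Int' u) :
    u.length ≤ gw q 0 u + gw q 1 u + gw q 2 u + 3 := by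
  match u, h, hi with
  | [], _, _ => simp
  | [_], _, _ => simp
  | [_, _], _, _ => simp
  | a :: b :: c :: r, h, hi =>
    have h1 := gs_ge hq r a b c h fun x hx => hi x (List.mem_cons_of_mem _ hx)
    simp only [gw, gs, List.length_cons] at h1 ⊢
    omega

def gL (e : Fin 8) (y : Fin 3) (u : List A) : ℕ :=
  gw (eS e) y u + if y = jY e then gw (eS e) (iY e) u else 0

theorem lhs_eq (e : Fin 8) (y : Fin 3) (b c : A) :
    lhs e y b c = tau (eS e) b c y + if y = jY e then tau (eS e) b c (iY e) else 0 := by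
  unfold lhs
  congr 1
  rw [Bool.cond_eq_ite]
  by_cases h : y = jY e
  · rw [if_pos h, if_pos]
    rw [h]
    exact Nat.beq_refl _
  · rw [if_neg h, if_neg]
    intro h'
    exact h (Fin.ext (Nat.eq_of_beq_eq_true h'))

theorem cg_ge (e : Fin 8) (y : Fin 3) (r : List A) (b c : A) :
    gs (eS e) y b (c :: r) + (if y = jY e then gs (eS e) (iY e) b (c :: r) else 0) ≤
      cg e y b c r + 62 := by
  induction r generalizing b c with
  | nil =>
    have h1 := tau_le (eS e) b c y
    have h2 := tau_le (eS e) b c (iY e)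
    simp only [gs, cg]
    split_ifs <;> omega
  | cons z r ih =>
    have h1 := ih c z
    simp only [gs, cg, lhs_eq] at h1 ⊢
    split_ifs at h1 ⊢ <;> omega

theorem gs_lst (e : Fin 8) (q : ℕ) (y : Fin 3) (a b c : A) (r : List A) :
    gs q y (lst e a b c) (emit e b c r) ≤ gw q y (out e a b c ++ emit e b c r) + 31 := by
  unfold lst
  generalize emit e b c r = w
  match out e a b c with
  | [] =>
    match w with
    | [] => simp [gs]
    | x :: w =>
      have := tau_le q ((out e 0 a b).getLastD 0) x y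
      simp only [gs, gw, List.nil_append, List.getLastD_nil]
      omega
  | x :: o =>
    simp only [List.cons_append, gw, gs_append, List.getLastD_cons]
    omega

theorem step_dom (e : Fin 8) (y : Fin 3) (u : List A) (h : Win (SS (eS e)) u = true)
    (h0 : slW e y u = 0) : gL e y u ≤ gw (eT e) (pY e y) (stp e u) + 400 := by
  match u, h, h0 with
  | [], _, _ => simp [gL, gw]
  | [a], _, _ => simp [gL, gw, gs]
  | [a, b], _, _ =>
    have h1 := tau_le (eS e) a b y
    have h2 := tau_le (eS e) a b (iY e)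
    simp only [gL, gw, gs]
    split_ifs <;> omega
  | a :: b :: c :: r, h, h0 =>
    have h1 := dom e y r a b c h
    have h2 := cg_ge e y r b c
    have h3 := gs_lst e (eT e) (pY e y) a b c r
    have h4 := tau_le (eS e) a b y
    have h5 := tau_le (eS e) a b (iY e)
    have h6 := pot_le e y (endc a b c r)
    have h0' : slS e y a b c r = 0 := h0
    have h7 : stp e (a :: b :: c :: r) = out e a b c ++ emit e b c r := rfl
    rw [h7]
    simp only [gL, gw] at h2 h3 ⊢
    rw [h0'] at h1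
    have e1 : gs (eS e) y a (b :: c :: r) = tau (eS e) a b y + gs (eS e) y b (c :: r) := rfl
    have e2 : gs (eS e) (iY e) a (b :: c :: r) =
      tau (eS e) a b (iY e) + gs (eS e) (iY e) b (c :: r) := rfl
    rw [e1, e2]
    split_ifs at h2 ⊢ <;> omega

/-- pairing with a vector -/
noncomputable def pr (q : ℕ) (u : List A) (x : Fin 3 → ℝ) : ℝ := ∑ y, (gw q y u : ℝ) * x y

theorem pY_bij : ∀ e : Fin 8, Function.Bijective (pY e) := by decide

theorem pr_Mv (e : Fin 8) (u : List A) (x : Fin 3 → ℝ) :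
    pr (eS e) u (Mv e x) = ∑ y, (gL e y u : ℝ) * x (pY e y) := by
  unfold pr Mv gL
  push_cast
  simp only [mul_add, add_mul, Finset.sum_add_distrib, mul_ite, ite_mul, mul_zero, zero_mul,
    Finset.sum_ite_eq', Finset.mem_univ, if_true]

theorem pr_step (e : Fin 8) (u : List A) (x : Fin 3 → ℝ) (hx : ∀ y, 0 ≤ x y)
    (h : Win (SS (eS e)) u = true) (h0 : ∀ y, slW e y u = 0) :
    pr (eS e) u (Mv e x) ≤ pr (eT e) (stp e u) x + 400 * ∑ y, x y := by
  rw [pr_Mv]
  have h1 : pr (eT e) (stp e u) x = ∑ y, (gw (eT e) (pY e y) (stp e u) : ℝ) * x (pY e y) := by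
    unfold pr
    exact ((pY_bij e).sum_comp fun y => (gw (eT e) y (stp e u) : ℝ) * x y).symm
  have h2 : ∑ y, x y = ∑ y, x (pY e y) := ((pY_bij e).sum_comp x).symm
  rw [h1, h2, Finset.mul_sum, ← Finset.sum_add_distrib]
  refine Finset.sum_le_sum fun y _ => ?_
  have h3 : (gL e y u : ℝ) ≤ (gw (eT e) (pY e y) (stp e u) : ℝ) + 400 := by
    exact_mod_cast step_dom e y u h (h0 y)
  have h4 := mul_le_mul_of_nonneg_right h3 (hx (pY e y))
  linarith

theorem Mv_nonneg (e : Fin 8) (x : Fin 3 → ℝ) (hx : ∀ y, 0 ≤ x y) (y : Fin 3) :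
    0 ≤ Mv e x y := by
  unfold Mv
  have h1 := hx (pY e y)
  have h2 := hx (pY e (jY e))
  split_ifs <;> linarith

theorem Mv_pos (e : Fin 8) (x : Fin 3 → ℝ) (hx : ∀ y, 0 < x y) (y : Fin 3) :
    0 < Mv e x y := by
  unfold Mv
  have h1 := hx (pY e y)
  have h2 := hx (pY e (jY e))
  split_ifs <;> linarith

theorem MvP_nonneg (p : List (Fin 8)) (x : Fin 3 → ℝ) (hx : ∀ y, 0 ≤ x y) (y : Fin 3) :
    0 ≤ MvP p x y := by
  induction p generalizing y with
  | nil => exact hx y
  | cons e p ih => exact Mv_nonneg e _ ih y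

theorem MvP_pos (p : List (Fin 8)) (x : Fin 3 → ℝ) (hx : ∀ y, 0 < x y) (y : Fin 3) :
    0 < MvP p x y := by
  induction p generalizing y with
  | nil => exact hx y
  | cons e p ih => exact Mv_pos e _ ih y

theorem okst_facts {e : Fin 8} {s t : ℕ} (h : okst e s t = true) :
    t < 16 ∧ sQ t = eT e ∧ (sR t < sR s ∨ (sR t = 0 ∧ sR s = 0)) := by
  unfold okst at h
  simp only [Bool.and_eq_true, Bool.or_eq_true] at h
  refine ⟨by simpa [Nat.blt_eq] using h.1.1, Nat.eq_of_beq_eq_true h.1.2, ?_⟩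
  rcases h.2 with h | h
  · exact Or.inl (by simpa [Nat.blt_eq] using h)
  · exact Or.inr ⟨Nat.eq_of_beq_eq_true h.1, Nat.eq_of_beq_eq_true h.2⟩

theorem pr_path (p : List (Fin 8)) (x : Fin 3 → ℝ) (hx : ∀ y, 0 ≤ x y) :
    ∃ C : ℝ, 0 ≤ C ∧ ∀ (q q' : ℕ), Pth q p q' → ∀ s < 16, sQ s = q → ∀ u : List A, Q p s u →
      pr q u (MvP p x) ≤ pr q' (stpP p u) x + C := by
  induction p with
  | nil =>
    refine ⟨0, le_rfl, fun q q' hp s hs hq u hu => ?_⟩
    have : q = q' := hp
    rw [this]
    simp [MvP, stpP]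
  | cons e p ih =>
    obtain ⟨C, hC, h⟩ := ih
    have hS : 0 ≤ ∑ y, MvP p x y := Finset.sum_nonneg fun y _ => MvP_nonneg p x hx y
    refine ⟨C + 400 * ∑ y, MvP p x y, by positivity, fun q q' hp s hs hq u hu => ?_⟩
    obtain ⟨hq1, hp⟩ := hp
    obtain ⟨h1, h2, t, h3, h4⟩ := hu
    obtain ⟨g1, g2, -⟩ := okst_facts h3
    have h5 := h (eT e) q' hp t g1 g2 (stp e u) h4
    have hW : Win (SS (eS e)) u = true := by
      rw [← hq1, ← hq]
      exact CB_S hs h1
    have h6 := pr_step e u (MvP p x) (fun y => MvP_nonneg p x hx y) hW h2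
    rw [hq1]
    simp only [MvP, stpP]
    linarith

theorem Q_coh (p : List (Fin 8)) : ∀ (q q' : ℕ), Pth q p q' → ∀ s < 16, sQ s = q → sR s = 0 →
    ∀ u : List A, Q p s u → ∃ t < 16, sR t = 0 ∧ Win (CB t) (stpP p u) = true := by
  induction p with
  | nil => exact fun q q' _ s hs _ hr u hu => ⟨s, hs, hr, hu⟩
  | cons e p ih =>
    intro q q' hp s hs hq hr u hu
    obtain ⟨h1, h2, t, h3, h4⟩ := hu
    obtain ⟨g1, g2, g3⟩ := okst_facts h3
    exact ih (eT e) q' hp.2 t g1 g2 (by omega) (stp e u) h4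

theorem SG_pads (s : ℕ) (hs : s < 16) : (SG s).testBit 0 = false ∧ (SG s).testBit 7 = false :=
  ⟨(chk_SG ⟨s, hs⟩ 0).2.1, (chk_SG ⟨s, hs⟩ 0).2.2⟩

theorem Al_int {s : ℕ} (hs : s < 16) {u : List A} (h : Al s u) : Int' u := by
  intro x hx
  have h1 := h x hx
  obtain ⟨h2, h3⟩ := SG_pads s hs
  constructor
  · rintro rfl
    rw [show ((0 : Fin 8) : ℕ) = 0 from rfl, h2] at h1
    exact Bool.noConfusion h1
  · rintro rfl
    rw [show ((7 : Fin 8) : ℕ) = 7 from rfl, h3] at h1
    exact Bool.noConfusion h1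

theorem sQ_lt {s : ℕ} (hs : s < 16) : sQ s < 2 := by
  have : ∀ s : Fin 16, sQ s.val < 2 := by decide
  exact this ⟨s, hs⟩

theorem Q_win {p : List (Fin 8)} {s : ℕ} {u : List A} (h : Q p s u) : Win (CB s) u = true := by
  match p, h with
  | [], h => exact h
  | _ :: _, h => exact h.1

/-- **coherent words see slack** -/
theorem coh_lemma (w : List (Fin 8)) (q : ℕ) (hw : Pth q w q) (P : PD (MP w))
    (hdet : (MP w).det = 1 ∨ (MP w).det = -1) :
    ∃ k L : ℕ, ∀ s < 16, sQ s = q → sR s = 0 → ∀ u : List A, Q (rp w k) s u → u.length < L := by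
  classical
  obtain ⟨μ, hμ, hμu⟩ : ∃ μ : ℝ, 0 < μ ∧ ∀ i, μ ≤ P.u i := by
    obtain ⟨i0, -, hi0⟩ := Finset.exists_min_image (Finset.univ : Finset (Fin 3)) P.u
      Finset.univ_nonempty
    exact ⟨P.u i0, P.u_pos i0, fun i => hi0 i (Finset.mem_univ i)⟩
  obtain ⟨k, hk, hadj⟩ := adj_small P (μ / 558) (by positivity)
  obtain ⟨p, hp⟩ : ∃ p, p = rp w k := ⟨_, rfl⟩
  have hMp : MP p = MP w ^ k := by rw [hp, MP_rp]
  have hPp : Pth q p q := by rw [hp]; exact Pth_rp hw k
  obtain ⟨C, hC, hab⟩ := ab_stpP p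
  obtain ⟨C', hC', hpr⟩ := pr_path p P.u fun y => (P.u_pos y).le
  obtain ⟨Λ, hΛ⟩ : ∃ Λ : ℝ, Λ = P.lam ^ k := ⟨_, rfl⟩
  have hΛ1 : 1 ≤ Λ := by rw [hΛ]; exact one_le_pow₀ P.lam_gt.le
  rw [← hΛ] at hadj
  obtain ⟨B, hB⟩ : ∃ B : ℝ, B = 2 * (3 * Λ * μ + μ / 2 * Λ * C + 124 + C') / (Λ * μ) := ⟨_, rfl⟩
  refine ⟨k, ⌈B⌉₊ + 5, fun s hs hsq hsr u hu => ?_⟩
  rw [← hp] at hu
  by_contra hlen
  rw [not_lt] at hlen
  have hwin := Q_win hu
  have hal := Win_al hs hsr u (by omega) hwin
  -- lower bound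
  have hlow : Λ * (μ * ((u.length : ℝ) - 3)) ≤ pr q u (MvP p P.u) := by
    have e1 : MvP p P.u = fun i => Λ * P.u i := by
      rw [← MP_act, hMp]
      funext i
      have := (P.pow k hk).M_u i
      rw [hΛ]
      exact this
    rw [e1]
    unfold pr
    have e2 : ∑ y, (gw q y u : ℝ) * (Λ * P.u y) = Λ * ∑ y, (gw q y u : ℝ) * P.u y := by
      rw [Finset.mul_sum]
      refine Finset.sum_congr rfl fun y _ => ?_
      ring
    rw [e2]
    refine mul_le_mul_of_nonneg_left ?_ (by linarith)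
    have e3 : μ * ∑ y, (gw q y u : ℝ) ≤ ∑ y, (gw q y u : ℝ) * P.u y := by
      rw [Finset.mul_sum]
      refine Finset.sum_le_sum fun y _ => ?_
      rw [mul_comm]
      exact mul_le_mul_of_nonneg_left (hμu y) (Nat.cast_nonneg _)
    refine le_trans ?_ e3
    refine mul_le_mul_of_nonneg_left ?_ hμ.le
    have e4 := gw_ge (sQ_lt hs) u (CB_S hs hwin) (Al_int hs hal)
    rw [hsq] at e4
    have e5 : (u.length : ℝ) ≤ gw q 0 u + gw q 1 u + gw q 2 u + 3 := by exact_mod_cast e4
    rw [Fin.sum_univ_three]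
    linarith
  -- upper bound
  have hup := hpr q q hPp s hs hsq u hu
  have hup2 : pr q (stpP p u) P.u ≤ 31 * ((stpP p u).length : ℝ) := by
    unfold pr
    calc ∑ y, (gw q y (stpP p u) : ℝ) * P.u y
        ≤ ∑ y, (31 * ((stpP p u).length : ℝ)) * P.u y := by
          refine Finset.sum_le_sum fun y _ => mul_le_mul_of_nonneg_right ?_ (P.u_pos y).le
          exact_mod_cast gw_le q y (stpP p u)
      _ = 31 * ((stpP p u).length : ℝ) := by rw [← Finset.mul_sum, P.u_sum, mul_one]
  -- length of the image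
  have hlenT : ((stpP p u).length : ℝ) ≤ 9 * (μ / 558 * Λ) * ((u.length : ℝ) + C) + 4 := by
    have hpos : 0 ≤ 9 * (μ / 558 * Λ) * ((u.length : ℝ) + C) := by
      have : (0:ℝ) ≤ C := by exact_mod_cast hC
      positivity
    by_cases h4 : (stpP p u).length < 4
    · have : ((stpP p u).length : ℝ) ≤ 4 := by exact_mod_cast h4.le
      linarith
    · obtain ⟨t, ht, htr, htW⟩ := Q_coh p q q hPp s hs hsq hsr u hu
      have h5 := Al_len ht (stpP p u) (Win_al ht htr _ (by omega) htW)
      obtain ⟨b, hb⟩ : ∃ b, b = abl (stpP p u) := ⟨_, rfl⟩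
      rw [← hb] at h5
      have h6 : ∀ y, |(MP p).mulVec b y| ≤ (u.length : ℤ) + C := by
        intro y
        have g1 := abs_le.1 (hab u y)
        have g2 := abs_le.1 (abl_le u y)
        rw [MP_mulVec, hb, abs_le]
        constructor <;> linarith [g1.1, g1.2, g2.1, g2.2]
      have h7 : ∀ l, |(b l : ℝ)| ≤ 3 * (μ / 558 * Λ) * ((u.length : ℝ) + C) := by
        intro l
        have g1 : (MP p).adjugate.mulVec ((MP p).mulVec b) = (MP p).det • b := by
          rw [Matrix.mulVec_mulVec, Matrix.adjugate_mul, Matrix.smul_mulVec, Matrix.one_mulVec]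
        have g2 : |(MP p).det| = 1 := by
          rw [hMp, Matrix.det_pow, abs_pow]
          rcases hdet with h | h <;> simp [h]
        have g3 : |b l| = |(MP p).adjugate.mulVec ((MP p).mulVec b) l| := by
          rw [g1, Pi.smul_apply, smul_eq_mul, abs_mul, g2, one_mul]
        have g4 : (|b l| : ℝ) = |((MP p).adjugate.mulVec ((MP p).mulVec b) l : ℤ)| := by
          exact_mod_cast g3
        have g5 : |((b l : ℤ) : ℝ)| = ((|b l| : ℤ) : ℝ) := by push_cast; rfl
        rw [g5, g3]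
        unfold Matrix.mulVec dotProduct
        push_cast
        refine (Finset.abs_sum_le_sum_abs _ _).trans ?_
        have g6 : ∀ m : Fin 3, |((MP p).adjugate l m : ℝ) * ∑ x, ((MP p) m x : ℝ) * (b x : ℝ)| ≤
            (μ / 558 * Λ) * ((u.length : ℝ) + C) := by
          intro m
          rw [abs_mul]
          refine mul_le_mul ?_ ?_ (abs_nonneg _) (by positivity)
          · rw [hMp]; exact hadj l m
          · have := h6 m
            unfold Matrix.mulVec dotProduct at this
            exact_mod_cast this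
        refine (Finset.sum_le_sum fun m _ => g6 m).trans ?_
        rw [Finset.sum_const, Finset.card_univ, Fintype.card_fin]
        simp only [nsmul_eq_mul]
        push_cast
        linarith
      have h8 : ((stpP p u).length : ℝ) ≤ ∑ l, |(b l : ℝ)| := by exact_mod_cast h5
      have h9 := Finset.sum_le_sum fun l (_ : l ∈ (Finset.univ : Finset (Fin 3))) => h7 l
      rw [Finset.sum_const, Finset.card_univ, Fintype.card_fin] at h9
      simp only [nsmul_eq_mul] at h9
      push_cast at h9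
      linarith
  have hfin : Λ * (μ * ((u.length : ℝ) - 3)) ≤
      31 * (9 * (μ / 558 * Λ) * ((u.length : ℝ) + C) + 4) + C' := by linarith
  have h10 : Λ * μ * (u.length : ℝ) ≤ 2 * (3 * Λ * μ + μ / 2 * Λ * C + 124 + C') := by
    nlinarith [hfin]
  have h11 : (u.length : ℝ) ≤ B := by
    rw [hB, le_div_iff₀ (by positivity)]
    linarith
  have h12 : B < (⌈B⌉₊ : ℝ) + 5 := by
    have := Nat.le_ceil B
    linarith
  have h13 : ((⌈B⌉₊ + 5 : ℕ) : ℝ) ≤ (u.length : ℝ) := by exact_mod_cast hlen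
  push_cast at h13
  linarith

end Pool.Agent.Helper65.DG
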