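import Mathlib

/-!
Ternary dendric graph: local rules of the inverse automorphisms, windows, tables.

Letters: `0` left pad, `1,2,3` the letters, `7-x` the inverse of the letter `x`, `7` right pad.
-/

set_option autoImplicit false

namespace Pool.Agent.Helper65.DG

abbrev A := Fin 8

def eK (e : Fin 8) : ℕ := ([0,0,1,1,0,0,1,1] : List ℕ).getD e.val 0
def eI (e : Fin 8) : ℕ := ([1,2,3,2,1,3,1,3] : List ℕ).getD e.val 0
def eJ (e : Fin 8) : ℕ := ([3,3,1,1,2,2,2,2] : List ℕ).getD e.val 0
/-- the relabelling of the edge -/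
def eP (e : Fin 8) (x : ℕ) : ℕ :=
  (([[0,1,3,2],[0,2,1,3],[0,2,1,3],[0,1,3,2],[0,2,1,3],[0,3,1,2],[0,2,3,1],[0,1,3,2]] :
    List (List ℕ)).getD e.val []).getD x 0
/-- source and target states -/
def eS (e : Fin 8) : ℕ := ([0,0,0,0,1,1,1,1] : List ℕ).getD e.val 0
def eT (e : Fin 8) : ℕ := ([0,1,0,1,0,0,0,0] : List ℕ).getD e.val 0

def rel (e : Fin 8) (x : ℕ) : ℕ :=
  bif Nat.beq x 0 || Nat.beq x 7 then x else
  bif Nat.ble x 3 then eP e x else 7 - eP e (7 - x)

def outI (K i j a x b : ℕ) : List ℕ :=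
  bif Nat.beq K 0 then
    bif Nat.beq x i then (bif Nat.beq b j then [] else [i])
    else bif Nat.beq x (7 - i) then (bif Nat.beq a (7 - j) then [] else [7 - i])
    else bif Nat.beq x j then (bif Nat.beq a i then [j] else [7 - i, j])
    else bif Nat.beq x (7 - j) then (bif Nat.beq b (7 - i) then [7 - j] else [7 - j, i])
    else [x]
  else
    bif Nat.beq x j then (bif Nat.beq b i then [j] else [j, 7 - i])
    else bif Nat.beq x (7 - j) then (bif Nat.beq a (7 - i) then [7 - j] else [i, 7 - j])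
    else bif Nat.beq x i then (bif Nat.beq a j then [] else [i])
    else bif Nat.beq x (7 - i) then (bif Nat.beq b (7 - j) then [] else [7 - i])
    else [x]

/-- the image of the letter `x` between the letters `a` and `b` -/
def out (e : Fin 8) (a x b : A) : List A :=
  (outI (eK e) (eI e) (eJ e) a.val x.val b.val).map fun y => Fin.ofNat 8 (rel e y)

/-- window code -/
def cd (a b c d : A) : ℕ := ((a.val * 8 + b.val) * 8 + c.val) * 8 + d.val

/-- all windows of `a b c l` lie in `S` -/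
def W3 (S : ℕ) : A → A → A → List A → Bool
  | _, _, _, [] => true
  | a, b, c, d :: r => S.testBit (cd a b c d) && W3 S b c d r

def Win (S : ℕ) : List A → Bool
  | a :: b :: c :: r => W3 S a b c r
  | _ => true

/-- images of `b` and the following letters of `b z r` but the last, `a` before `b` -/
def emit (e : Fin 8) : A → A → List A → List A
  | _, _, [] => []
  | a, b, z :: r => out e a b z ++ emit e b z r

/-- inner image of a word -/
def stp (e : Fin 8) : List A → List A
  | a :: b :: r => emit e a b r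
  | _ => []

/-! tables -/

def a1 (u : ℕ) : A := Fin.ofNat 8 (u / 64)
def a2 (u : ℕ) : A := Fin.ofNat 8 (u / 8)
def a3 (u : ℕ) : A := Fin.ofNat 8 u
def dec (o : ℕ) : List A :=
  bif Nat.ble 512 o then [a1 o, a2 o, a3 o] else
  bif Nat.ble 64 o then [a2 o, a3 o] else
  bif Nat.ble 8 o then [a3 o] else []

def last3 (l : List A) : List A := l.drop (l.length - 3)

def ku (T k : ℕ) : ℕ := (T >>> (104 * k)) % 512
def ko (T k : ℕ) : ℕ := (T >>> (104 * k + 9)) % 1024
def kr (T k : ℕ) : ℕ := (T >>> (104 * k + 19)) % 16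
def kt (T k : ℕ) : ℕ := (T >>> (104 * k + 23)) % 512
def ks (T k z : ℕ) : ℕ := (T >>> (104 * k + 32 + 9 * z)) % 512

def ck1 (e : Fin 8) (src : ℕ) (tg : ℕ → ℕ) (ok : ℕ → Bool) (T n k : ℕ) (z : A) : Bool :=
  !(src.testBit (cd (a1 (ku T k)) (a2 (ku T k)) (a3 (ku T k)) z)) ||
  (Nat.blt (ks T k z.val) n &&
   Nat.beq (ku T (ks T k z.val)) ((ku T k * 8 + z.val) % 512) &&
   decide (dec (ko T (ks T k z.val)) =
      last3 (dec (ko T k) ++ out e (a2 (ku T k)) (a3 (ku T k)) z)) &&
   (Nat.blt (kr T (ks T k z.val)) (kr T k) ||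
     (Nat.beq (kr T (ks T k z.val)) (kr T k) && Nat.beq (kt T (ks T k z.val)) (kt T k) &&
      Win (tg (kt T k)) (dec (ko T k) ++ out e (a2 (ku T k)) (a3 (ku T k)) z) &&
      ok (kt T k))))

def ckT (e : Fin 8) (src : ℕ) (tg : ℕ → ℕ) (ok : ℕ → Bool) (T n : ℕ) : Bool :=
  (List.range n).all fun k =>
    ([0,1,2,3,4,5,6,7] : List (Fin 8)).all fun z => ck1 e src tg ok T n k z

def ckS (src T n : ℕ) : Bool :=
  (List.range 512).all fun u =>
    Nat.beq ((src >>> (8 * u)) % 256) 0 ||
      (List.range n).any fun k => Nat.beq (ku T k) u && Nat.beq (ko T k) 1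

end Pool.Agent.Helper65.DG
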