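import Pool.Agent.Helper65.DG.Defs

/-! windows, emission, tables: soundness -/

set_option autoImplicit false

namespace Pool.Agent.Helper65.DG

theorem Win_cons4 (S : ℕ) (a b c d : A) (r : List A) :
    Win S (a :: b :: c :: d :: r) = (S.testBit (cd a b c d) && Win S (b :: c :: d :: r)) := rfl

theorem Win_short (S : ℕ) (l : List A) (h : l.length ≤ 3) : Win S l = true := by
  match l, h with
  | [], _ => rfl
  | [_], _ => rfl
  | [_, _], _ => rfl
  | [_, _, _], _ => rfl
  | a :: b :: c :: d :: r, h => simp at h; omega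

theorem Win_tail {S : ℕ} {a : A} {l : List A} (h : Win S (a :: l) = true) : Win S l = true := by
  match l, h with
  | [], _ => rfl
  | [_], _ => rfl
  | [_, _], _ => rfl
  | b :: c :: d :: r, h =>
    rw [Win_cons4, Bool.and_eq_true] at h
    exact h.2

theorem Win_left {S : ℕ} (l r : List A) (h : Win S (l ++ r) = true) : Win S l = true := by
  induction l with
  | nil => rfl
  | cons a l ih =>
    match l, ih, h with
    | [], _, _ => rfl
    | [_], _, _ => rfl
    | [_, _], _, _ => rfl
    | b :: c :: d :: l', ih, h =>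
      simp only [List.cons_append] at h
      rw [Win_cons4, Bool.and_eq_true] at h
      rw [Win_cons4, Bool.and_eq_true]
      exact ⟨h.1, ih h.2⟩

theorem Win_right {S : ℕ} (l r : List A) (h : Win S (l ++ r) = true) : Win S r = true := by
  induction l with
  | nil => exact h
  | cons a l ih => exact ih (Win_tail h)

theorem Win_infix {S : ℕ} {l r : List A} (hl : l <:+: r) (h : Win S r = true) :
    Win S l = true := by
  obtain ⟨p, q, rfl⟩ := hl
  exact Win_right p l (Win_left (p ++ l) q h)

theorem last3_cons (a : A) (l : List A) (h : 3 ≤ l.length) : last3 (a :: l) = last3 l := by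
  unfold last3
  rw [List.length_cons]
  have h1 : l.length + 1 - 3 = (l.length - 3) + 1 := by omega
  rw [h1, List.drop_succ_cons]

theorem last3_short (l : List A) (h : l.length ≤ 3) : last3 l = l := by
  unfold last3
  rw [Nat.sub_eq_zero_of_le h, List.drop_zero]

theorem Win_comb {S : ℕ} (x y : List A) (h1 : Win S x = true)
    (h2 : Win S (last3 x ++ y) = true) : Win S (x ++ y) = true := by
  induction x with
  | nil => exact h2
  | cons a l ih =>
    match l, ih, h1, h2 with
    | [], _, _, h2 => exact h2
    | [_], _, _, h2 => exact h2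
    | [_, _], _, _, h2 => exact h2
    | b :: c :: d :: l', ih, h1, h2 =>
      rw [Win_cons4, Bool.and_eq_true] at h1
      rw [last3_cons _ _ (by simp)] at h2
      have := ih h1.2 h2
      simp only [List.cons_append] at this ⊢
      rw [Win_cons4, Bool.and_eq_true]
      exact ⟨h1.1, this⟩

theorem W3_and {S T : ℕ} (r : List A) (a b c : A) :
    W3 (S &&& T) a b c r = true ↔ W3 S a b c r = true ∧ W3 T a b c r = true := by
  induction r generalizing a b c with
  | nil => simp [W3]
  | cons d r ih =>
    simp only [W3, Bool.and_eq_true, ih, Nat.testBit_and]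
    tauto

theorem Win_and {S T : ℕ} (l : List A) (h1 : Win S l = true) (h2 : Win T l = true) :
    Win (S &&& T) l = true := by
  match l, h1, h2 with
  | [], _, _ => rfl
  | [_], _, _ => rfl
  | [_, _], _, _ => rfl
  | a :: b :: c :: r, h1, h2 => exact (W3_and r a b c).2 ⟨h1, h2⟩

theorem Win_mono {S T : ℕ} (hST : S &&& T = S) (l : List A) (h : Win S l = true) :
    Win T l = true := by
  match l, h with
  | [], _ => rfl
  | [_], _ => rfl
  | [_, _], _ => rfl
  | a :: b :: c :: r, h =>
    have h' : W3 (S &&& T) a b c r = true := by rw [hST]; exact h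
    exact ((W3_and r a b c).1 h').2

/-! emission -/

theorem stp_two (e : Fin 8) (a b : A) (r : List A) : stp e (a :: b :: r) = emit e a b r := rfl

theorem emit_prefix (e : Fin 8) (r q : List A) (a b : A) :
    emit e a b r <+: emit e a b (r ++ q) := by
  induction r generalizing a b with
  | nil => exact List.nil_prefix
  | cons z r ih =>
    simp only [List.cons_append, emit]
    exact (List.prefix_append_right_inj _).2 (ih b z)

theorem stp_prefix (e : Fin 8) (u q : List A) : stp e u <+: stp e (u ++ q) := by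
  match u with
  | [] => exact List.nil_prefix
  | [_] => exact List.nil_prefix
  | a :: b :: r => exact emit_prefix e r q a b

theorem stp_suffix (e : Fin 8) (p u : List A) : stp e u <:+ stp e (p ++ u) := by
  induction p with
  | nil => exact List.suffix_refl _
  | cons a p ih =>
    refine ih.trans ?_
    rw [List.cons_append]
    generalize p ++ u = w
    match w with
    | [] => exact List.nil_suffix
    | [_] => exact List.nil_suffix
    | b :: c :: r => exact List.suffix_append _ _

theorem stp_infix {e : Fin 8} {u v : List A} (h : u <:+: v) : stp e u <:+: stp e v := by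
  obtain ⟨p, q, rfl⟩ := h
  exact (stp_suffix e p u).isInfix.trans (stp_prefix e (p ++ u) q).isInfix

theorem out_len (e : Fin 8) (a x b : A) : (out e a x b).length ≤ 2 := by
  unfold out
  rw [List.length_map]
  unfold outI
  simp only [Bool.cond_eq_ite]
  split_ifs <;> simp

theorem emit_len (e : Fin 8) (r : List A) (a b : A) :
    (emit e a b r).length ≤ 2 * r.length := by
  induction r generalizing a b with
  | nil => simp [emit]
  | cons z r ih =>
    simp only [emit, List.length_append, List.length_cons]
    have h1 := out_len e a b z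
    have h2 := ih b z
    omega

theorem pull_suf (e : Fin 8) (r : List A) (a b : A) (p v : List A)
    (h : emit e a b r = p ++ v) :
    ∃ x y m pre, a :: b :: r = pre ++ x :: y :: m ∧ emit e x y m <:+ v ∧
      v.length ≤ (emit e x y m).length + 2 := by
  induction r generalizing a b p with
  | nil =>
    simp only [emit, List.nil_eq, List.append_eq_nil_iff] at h
    exact ⟨a, b, [], [], rfl, by rw [h.2]; exact List.suffix_refl _, by rw [h.2]; simp⟩
  | cons z r ih =>
    simp only [emit] at h
    rcases List.append_eq_append_iff.1 h with ⟨w, h1, h2⟩ | ⟨w, h1, h2⟩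
    · obtain ⟨x, y, m, pre, h3, h4, h5⟩ := ih b z w h2
      exact ⟨x, y, m, a :: pre, by rw [List.cons_append, ← h3], h4, h5⟩
    · refine ⟨b, z, r, [a], rfl, ?_, ?_⟩
      · rw [h2]
        exact List.suffix_append _ _
      · rw [h2, List.length_append]
        have h3 := out_len e a b z
        rw [h1, List.length_append] at h3
        omega

theorem pull_pre (e : Fin 8) (r : List A) (a b : A) (v q : List A)
    (h : emit e a b r = v ++ q) :
    ∃ m post, r = m ++ post ∧ emit e a b m <+: v ∧
      v.length ≤ (emit e a b m).length + 2 := by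
  induction r generalizing a b v with
  | nil =>
    simp only [emit, List.nil_eq, List.append_eq_nil_iff] at h
    exact ⟨[], [], rfl, by rw [h.1]; exact List.prefix_refl _, by rw [h.1]; simp⟩
  | cons z r ih =>
    simp only [emit] at h
    rcases List.append_eq_append_iff.1 h with ⟨w, h1, h2⟩ | ⟨w, h1, h2⟩
    · obtain ⟨m, post, h3, h4, h5⟩ := ih b z w h2
      refine ⟨z :: m, post, by rw [h3]; rfl, ?_, ?_⟩
      · rw [h1]
        simp only [emit]
        exact (List.prefix_append_right_inj _).2 h4
      · rw [h1]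
        simp only [emit, List.length_append]
        omega
    · refine ⟨[], z :: r, rfl, List.nil_prefix, ?_⟩
      have h3 := out_len e a b z
      rw [h1, List.length_append] at h3
      simp only [emit, List.length_nil]
      omega

/-- an infix of the inner image contains the inner image of a long infix -/
theorem pullback {e : Fin 8} {r v : List A} (h : v <:+: stp e r) :
    ∃ r', r' <:+: r ∧ stp e r' <:+: v ∧ v.length ≤ 2 * r'.length + 4 := by
  obtain ⟨p, q, hpq⟩ := h
  match r, hpq with
  | [], hpq =>
    simp only [stp, List.append_eq_nil_iff] at hpq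
    exact ⟨[], List.infix_refl _, List.nil_infix, by rw [hpq.1.2]; simp⟩
  | [c], hpq =>
    simp only [stp, List.append_eq_nil_iff] at hpq
    exact ⟨[], List.nil_infix, List.nil_infix, by rw [hpq.1.2]; simp⟩
  | a :: b :: r, hpq =>
    rw [stp_two, List.append_assoc] at hpq
    obtain ⟨x, y, m, pre, h1, h2, h3⟩ := pull_suf e r a b p (v ++ q) hpq.symm
    -- `emit x y m` is a suffix of `v ++ q`
    obtain ⟨w, hw⟩ := h2
    rcases List.append_eq_append_iff.1 hw with ⟨s, h4, h5⟩ | ⟨s, h4, h5⟩
    · -- v = w ++ s, emit = s ++ q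
      obtain ⟨m', post, h6, h7, h8⟩ := pull_pre e m x y s q h5
      refine ⟨x :: y :: m', ?_, ?_, ?_⟩
      · rw [h1, h6]
        exact ⟨pre, post, by simp⟩
      · rw [stp_two, h4]
        exact h7.isInfix.trans (List.suffix_append _ _).isInfix
      · have h9 := emit_len e m' x y
        have h10 : w.length ≤ 2 := by
          have := congrArg List.length hw
          rw [List.length_append] at this
          omega
        rw [h4]
        simp only [List.length_append, List.length_cons]
        omega
    · -- w = v ++ s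
      have h10 : w.length ≤ 2 := by
        have := congrArg List.length hw
        rw [List.length_append] at this
        omega
      refine ⟨[], List.nil_infix, List.nil_infix, ?_⟩
      rw [h4, List.length_append] at h10
      simp
      omega

/-! tables -/

theorem letters_of_step (u : ℕ) (z : A) (u' : ℕ) (h : u' = (u * 8 + z.val) % 512) :
    a1 u' = a2 u ∧ a2 u' = a3 u ∧ a3 u' = z := by
  subst h
  obtain ⟨z, hz⟩ := z
  refine ⟨?_, ?_, ?_⟩ <;> (apply Fin.ext; simp only [a1, a2, a3, Fin.val_ofNat]; omega)

theorem run {e : Fin 8} {src : ℕ} {tg : ℕ → ℕ} {ok : ℕ → Bool} {T n : ℕ}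
    (h : ckT e src tg ok T n = true) : ∀ (r1 r2 : List A) (k : ℕ), k < n →
    W3 src (a1 (ku T k)) (a2 (ku T k)) (a3 (ku T k)) (r1 ++ r2) = true →
    ∃ j < n, kr T j ≤ kr T k ∧
      (∃ pre, a2 (ku T k) :: a3 (ku T k) :: r1 = pre ++ [a2 (ku T j), a3 (ku T j)]) ∧
      W3 src (a1 (ku T j)) (a2 (ku T j)) (a3 (ku T j)) r2 = true ∧
      (kr T j = kr T k → kt T j = kt T k ∧ (r1 ≠ [] → ok (kt T k) = true) ∧
        Win (tg (kt T k)) (dec (ko T k) ++ emit e (a2 (ku T k)) (a3 (ku T k)) r1) = true) := by
  intro r1
  induction r1 with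
  | nil =>
    intro r2 k hk hW
    refine ⟨k, hk, le_rfl, ⟨[], rfl⟩, hW, fun _ => ⟨rfl, fun h => absurd rfl h, ?_⟩⟩
    apply Win_short
    unfold dec
    simp only [Bool.cond_eq_ite, emit, List.append_nil]
    split_ifs <;> simp
  | cons z r ih =>
    intro r2 k hk hW
    simp only [List.cons_append, W3, Bool.and_eq_true] at hW
    obtain ⟨hz, hW⟩ := hW
    have hck : ck1 e src tg ok T n k z = true := by
      unfold ckT at h
      rw [List.all_eq_true] at h
      have h1 := h k (List.mem_range.2 hk)
      rw [List.all_eq_true] at h1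
      exact h1 z (by fin_cases z <;> simp)
    unfold ck1 at hck
    rw [hz] at hck
    simp only [Bool.not_true, Bool.false_or, Bool.and_eq_true, Bool.or_eq_true,
      decide_eq_true_eq] at hck
    obtain ⟨⟨⟨h1, h2⟩, h3⟩, h4⟩ := hck
    obtain ⟨j1, hj1⟩ : ∃ j1, j1 = ks T k z.val := ⟨_, rfl⟩
    rw [← hj1] at h1 h2 h3 h4
    have h1' : j1 < n := by simpa [Nat.blt_eq] using h1
    obtain ⟨e1, e2, e3⟩ := letters_of_step (ku T k) z (ku T j1) (Nat.eq_of_beq_eq_true h2)
    obtain ⟨j, hj, hjr, ⟨pre, hpre⟩, hj2, hj3⟩ := ih r2 j1 h1' (by rw [e1, e2, e3]; exact hW)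
    have hr1 : kr T j1 ≤ kr T k := by
      rcases h4 with h4 | h4
      · have : kr T j1 < kr T k := by simpa [Nat.blt_eq] using h4
        omega
      · exact le_of_eq (Nat.eq_of_beq_eq_true h4.1.1.1)
    refine ⟨j, hj, hjr.trans hr1, ⟨a2 (ku T k) :: pre, ?_⟩, hj2, ?_⟩
    · rw [List.cons_append, ← hpre, e2, e3]
    · intro heq
      have heq1 : kr T j = kr T j1 := le_antisymm hjr (heq ▸ hr1)
      have h5 : kr T j1 = kr T k := heq1.symm.trans heq
      rcases h4 with h4 | ⟨⟨⟨-, h6⟩, h7⟩, h8⟩
      · have : kr T j1 < kr T k := by simpa [Nat.blt_eq] using h4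
        omega
      · have h6' : kt T j1 = kt T k := Nat.eq_of_beq_eq_true h6
        obtain ⟨g1, -, g2⟩ := hj3 heq1
        refine ⟨g1.trans h6', fun _ => h8, ?_⟩
        rw [h6', h3, e2, e3] at g2
        have := Win_comb _ _ h7 g2
        rw [List.append_assoc] at this
        exact this

theorem Hlem {e : Fin 8} {src : ℕ} {tg : ℕ → ℕ} {ok : ℕ → Bool} {T n : ℕ}
    (h : ckT e src tg ok T n = true) (l : ℕ) (hl : 1 ≤ l) : ∀ (R k : ℕ), k < n → kr T k ≤ R →
    ∀ r : List A, (R + 1) * l ≤ r.length →
    W3 src (a1 (ku T k)) (a2 (ku T k)) (a3 (ku T k)) r = true →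
    ∃ t, ok t = true ∧ ∃ x y m, (x :: y :: m) <:+: (a2 (ku T k) :: a3 (ku T k) :: r) ∧
      m.length = l ∧ Win (tg t) (emit e x y m) = true := by
  intro R
  induction R with
  | zero =>
    intro k hk hR r hr hW
    have h1 : l ≤ r.length := by simpa using hr
    obtain ⟨j, hj, hjr, -, -, hj3⟩ := run h (r.take l) (r.drop l) k hk
      (by rw [List.take_append_drop]; exact hW)
    obtain ⟨-, g1, g2⟩ := hj3 (by omega)
    have h2 : (r.take l).length = l := by rw [List.length_take]; omega
    refine ⟨kt T k, g1 ?_, a2 (ku T k), a3 (ku T k), r.take l, ?_, h2, Win_right _ _ g2⟩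
    · intro h0
      rw [h0] at h2
      simp at h2
      omega
    · refine ⟨[], r.drop l, ?_⟩
      simp
  | succ R ih =>
    intro k hk hR r hr hW
    have hr' : (R + 1) * l + l ≤ r.length := by
      have : (R + 1 + 1) * l = (R + 1) * l + l := by ring
      omega
    have h1 : l ≤ r.length := by omega
    obtain ⟨j, hj, hjr, ⟨pre, hpre⟩, hj2, hj3⟩ := run h (r.take l) (r.drop l) k hk
      (by rw [List.take_append_drop]; exact hW)
    have h2 : (r.take l).length = l := by rw [List.length_take]; omega
    by_cases heq : kr T j = kr T k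
    · obtain ⟨-, g1, g2⟩ := hj3 heq
      refine ⟨kt T k, g1 ?_, a2 (ku T k), a3 (ku T k), r.take l, ?_, h2, Win_right _ _ g2⟩
      · intro h0
        rw [h0] at h2
        simp at h2
        omega
      · refine ⟨[], r.drop l, ?_⟩
        simp
    · obtain ⟨t, ht, x, y, m, g1, g2, g3⟩ := ih j hj (by omega) (r.drop l)
        (by rw [List.length_drop]; omega) hj2
      refine ⟨t, ht, x, y, m, g1.trans ?_, g2, g3⟩
      refine ⟨pre, [], ?_⟩
      rw [List.append_nil]
      have h3 : a2 (ku T k) :: a3 (ku T k) :: r =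
          (a2 (ku T k) :: a3 (ku T k) :: r.take l) ++ r.drop l := by simp
      rw [h3, hpre]
      simp

theorem start_ok {src T n : ℕ} (h : ckS src T n = true) (a b c d : A)
    (hw : src.testBit (cd a b c d) = true) :
    ∃ k < n, a1 (ku T k) = a ∧ a2 (ku T k) = b ∧ a3 (ku T k) = c := by
  obtain ⟨a, ha⟩ := a
  obtain ⟨b, hb⟩ := b
  obtain ⟨c, hc⟩ := c
  obtain ⟨d, hd⟩ := d
  obtain ⟨u, hu⟩ : ∃ u, u = (a * 8 + b) * 8 + c := ⟨_, rfl⟩
  have hu5 : u < 512 := by omega
  unfold ckS at h
  rw [List.all_eq_true] at h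
  have h1 := h u (List.mem_range.2 hu5)
  rw [Bool.or_eq_true] at h1
  rcases h1 with h1 | h1
  · exfalso
    have h2 := Nat.eq_of_beq_eq_true h1
    have h3 : ((src >>> (8 * u)) % 2 ^ 8).testBit d = true := by
      rw [Nat.testBit_mod_two_pow, Nat.testBit_shiftRight]
      have h4 : 8 * u + d = cd ⟨a, ha⟩ ⟨b, hb⟩ ⟨c, hc⟩ ⟨d, hd⟩ := by
        simp only [cd]; omega
      rw [h4, hw]
      simp [hd]
    have h5 : (2:ℕ) ^ 8 = 256 := by norm_num
    rw [h5, h2] at h3
    simp at h3
  · rw [List.any_eq_true] at h1
    obtain ⟨k, hk, hk2⟩ := h1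
    rw [Bool.and_eq_true] at hk2
    have h2 := Nat.eq_of_beq_eq_true hk2.1
    refine ⟨k, List.mem_range.1 hk, ?_, ?_, ?_⟩ <;>
      (rw [h2]; apply Fin.ext; simp only [a1, a2, a3, Fin.val_ofNat]; omega)

/-- one step of tracking -/
theorem track {e : Fin 8} {src : ℕ} {tg : ℕ → ℕ} {ok : ℕ → Bool} {T n : ℕ}
    (h : ckT e src tg ok T n = true) (h' : ckS src T n = true) (l : ℕ) (hl : 1 ≤ l)
    (u : List A) (hu : 16 * l + 4 ≤ u.length) (hW : Win src u = true) :
    ∃ t, ok t = true ∧ ∃ r, r <:+: u ∧ l ≤ r.length ∧ Win (tg t) (stp e r) = true := by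
  match u, hu, hW with
  | [], hu, _ => simp at hu
  | [_], hu, _ => simp at hu
  | [_, _], hu, _ => simp at hu
  | [_, _, _], hu, _ => simp at hu
  | a :: b :: c :: d :: r, hu, hW =>
    have h1 : src.testBit (cd a b c d) = true := by
      rw [Win_cons4, Bool.and_eq_true] at hW
      exact hW.1
    obtain ⟨k, hk, e1, e2, e3⟩ := start_ok h' a b c d h1
    have hkr : kr T k ≤ 15 := by
      unfold kr
      omega
    obtain ⟨t, ht, x, y, m, g1, g2, g3⟩ := Hlem h l hl 15 k hk hkr (d :: r)
      (by simp only [List.length_cons] at hu ⊢; omega) (by rw [e1, e2, e3]; exact hW)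
    rw [e2, e3] at g1
    refine ⟨t, ht, x :: y :: m, g1.trans ⟨[a], [], by simp⟩, ?_, g3⟩
    simp only [List.length_cons]
    omega

end Pool.Agent.Helper65.DG
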