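import Pool.Agent.Helper65.DG.Data
import Pool.Agent.Helper65.DG.Win

/-! definitions for the domination inequality -/

set_option autoImplicit false

namespace Pool.Agent.Helper65.DG

def lst (e : Fin 8) (a b c : A) : A := (out e a b c).getLastD ((out e 0 a b).getLastD 0)

def gs (q : ℕ) (y : Fin 3) : A → List A → ℕ
  | _, [] => 0
  | a, b :: r => tau q a b y + gs q y b r

def pY (e : Fin 8) (y : Fin 3) : Fin 3 := Fin.ofNat 3 (eP e (y.val + 1) - 1)
def iY (e : Fin 8) : Fin 3 := Fin.ofNat 3 (eI e - 1)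
def jY (e : Fin 8) : Fin 3 := Fin.ofNat 3 (eJ e - 1)

def lhs (e : Fin 8) (y : Fin 3) (b c : A) : ℕ :=
  tau (eS e) b c y + (bif Nat.beq y.val (jY e).val then tau (eS e) b c (iY e) else 0)
def rhs (e : Fin 8) (y : Fin 3) (a b c z : A) : ℕ :=
  gs (eT e) (pY e y) (lst e a b c) (out e b c z)
def cd3 (a b c : A) : ℕ := (a.val * 8 + b.val) * 8 + c.val
def sl (e : Fin 8) (y : Fin 3) (a b c z : A) : ℕ :=
  (lhs e y b c + pot e y (cd3 a b c)) - (rhs e y a b c z + pot e y (cd3 b c z))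

def cDy (e : Fin 8) (y : Fin 3) (a b c z : A) : Bool :=
  Nat.ble (rhs e y a b c z + pot e y (cd3 b c z)) (lhs e y b c + pot e y (cd3 a b c))

def nil? : List A → Bool
  | [] => true
  | _ => false

/-- check of one window -/
def cD (e : Fin 8) (a b c z : A) : Bool :=
  !((SS (eS e)).testBit (cd a b c z)) ||
  (cDy e 0 a b c z && cDy e 1 a b c z && cDy e 2 a b c z &&
   (!(Nat.beq (sl e 0 a b c z) 0 && Nat.beq (sl e 1 a b c z) 0 && Nat.beq (sl e 2 a b c z) 0) ||
     (TG e).testBit (cd a b c z)) &&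
   (!(nil? (out e a b c)) || !(nil? (out e b c z))) &&
   decide ((out e b c z).getLastD (lst e a b c) = lst e b c z))

/-- check of one window, states -/
def cW (q : Fin 2) (a b c z : A) : Bool :=
  !((SS q.val).testBit (cd a b c z)) ||
  ((a == 0 || a == 7 || b == 0 || b == 7 || c == 0 || c == 7 || z == 0 || z == 7 ||
      (CB q.val).testBit (cd a b c z)) &&
   (b == 0 || b == 7 || c == 0 || c == 7 ||
      Nat.blt 0 (tau q.val b c 0 + tau q.val b c 1 + tau q.val b c 2)))

/-- coherence -/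
def cC (s : Fin 16) (a b c z : A) : Bool :=
  !(Nat.beq (sR s.val) 0) || !((CB s.val).testBit (cd a b c z)) ||
  ((SG s.val).testBit a.val && (SG s.val).testBit b.val && (SG s.val).testBit c.val &&
   (SG s.val).testBit z.val)

def okst (e : Fin 8) (s t : ℕ) : Bool :=
  Nat.blt t 16 && Nat.beq (sQ t) (eT e) &&
    (Nat.blt (sR t) (sR s) || (Nat.beq (sR t) 0 && Nat.beq (sR s) 0))

def rt (e : Fin 8) : ℕ × ℕ := RTL.getD e.val (0, 0)

def cR (e : Fin 8) : Bool :=
  ckT e (SS (eS e)) (fun _ => SS (eT e)) (fun _ => true) (rt e).2 (rt e).1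

def cS (s : ℕ) (e : Fin 8) : Bool :=
  ckT e (CB s &&& TG e) CB (okst e s) (ST s e).2 (ST s e).1 && ckS (CB s &&& TG e) (ST s e).2 (ST s e).1

end Pool.Agent.Helper65.DG
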