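import Pool.Agent.Helper65.DG.LA

/-! powers of Pisot matrices of size 3 -/

set_option autoImplicit false

namespace Pool.Agent.Helper65.DG
open Pool.Agent.H812R2.PI Polynomial
open scoped BigOperators

/-- an integer eigenvector is impossible -/
theorem no_int_eig {M : Matrix (Fin 3) (Fin 3) ℤ} (P : PD M) (z : Fin 3 → ℤ) (hz : z ≠ 0)
    (ν : ℝ) (h : ∀ i, ∑ j, (M i j : ℝ) * (z j : ℝ) = ν * z i) : False := by
  have h1 : ν = P.lam := by
    have h2 : ∑ i, P.ell i * (z i : ℝ) ≠ 0 := fun h0 => hz (P.ell_ind z h0)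
    have h3 : ∑ i, P.ell i * (∑ j, (M i j : ℝ) * (z j : ℝ)) = P.lam * ∑ i, P.ell i * (z i : ℝ) := by
      simp only [Finset.mul_sum]
      rw [Finset.sum_comm]
      refine Finset.sum_congr rfl fun j _ => ?_
      have := P.ell_M j
      calc ∑ x, P.ell x * ((M x j : ℝ) * (z j : ℝ)) = (∑ x, P.ell x * (M x j : ℝ)) * z j := by
            rw [Finset.sum_mul]
            refine Finset.sum_congr rfl fun i _ => ?_
            ring
        _ = P.lam * (P.ell j * z j) := by rw [this]; ring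
    have h4 : ∑ i, P.ell i * (∑ j, (M i j : ℝ) * (z j : ℝ)) = ν * ∑ i, P.ell i * (z i : ℝ) := by
      rw [Finset.mul_sum]
      refine Finset.sum_congr rfl fun i _ => ?_
      rw [h i]
      ring
    exact mul_right_cancel₀ h2 (h4.symm.trans h3)
  obtain ⟨x, hx⟩ : ∃ x : Fin 3 → ℝ, x = fun i => (z i : ℝ) := ⟨_, rfl⟩
  have hact : ∀ n : ℕ, P.N (fun i => P.lam ^ n * x i) ≤ P.rho ^ n * P.N x := by
    intro n
    induction n with
    | zero => simp
    | succ n ih =>
      have h5 : act M (fun i => P.lam ^ n * x i) = fun i => P.lam ^ (n + 1) * x i := by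
        funext i
        unfold act
        have h6 := h i
        rw [h1] at h6
        calc ∑ j, (M i j : ℝ) * (P.lam ^ n * x j) = P.lam ^ n * ∑ j, (M i j : ℝ) * (z j : ℝ) := by
              rw [Finset.mul_sum]
              refine Finset.sum_congr rfl fun j _ => ?_
              rw [hx]
              ring
          _ = P.lam ^ (n + 1) * x i := by rw [h6, hx]; ring
      have h7 := P.N_act (fun i => P.lam ^ n * x i)
      rw [h5] at h7
      refine h7.trans ?_
      have h8 := mul_le_mul_of_nonneg_left ih P.rho_nonneg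
      refine h8.trans (le_of_eq ?_)
      ring
  have hprop : ∀ i, x i = (∑ j, x j) * P.u i := by
    intro i
    by_contra hne
    have hpos : 0 < |x i - (∑ j, x j) * P.u i| := abs_pos.2 (sub_ne_zero.2 hne)
    obtain ⟨n, hn⟩ := exists_pow_lt_of_lt_one
      (show (0:ℝ) < |x i - (∑ j, x j) * P.u i| / (P.c * P.N x + 1) by
        have := P.N_nonneg x
        have := P.c_pos
        positivity) P.rho_lt
    have h5 := P.le_cN (fun i => P.lam ^ n * x i) i
    have h6 : P.lam ^ n * x i - (∑ j, P.lam ^ n * x j) * P.u i =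
        P.lam ^ n * (x i - (∑ j, x j) * P.u i) := by
      rw [← Finset.mul_sum]
      ring
    rw [h6, abs_mul, abs_of_pos (pow_pos (by linarith [P.lam_gt]) n)] at h5
    have h7 := mul_le_mul_of_nonneg_left (hact n) P.c_pos.le
    have h8 : 1 ≤ P.lam ^ n := one_le_pow₀ P.lam_gt.le
    have h9 : |x i - (∑ j, x j) * P.u i| ≤ P.rho ^ n * (P.c * P.N x) := by
      have : |x i - (∑ j, x j) * P.u i| ≤ P.lam ^ n * |x i - (∑ j, x j) * P.u i| :=
        le_mul_of_one_le_left hpos.le h8
      linarith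
    rw [lt_div_iff₀ (by have := P.N_nonneg x; have := P.c_pos; positivity)] at hn
    have h10 : 0 ≤ P.rho ^ n := pow_nonneg P.rho_nonneg n
    nlinarith
  obtain ⟨S, hS⟩ : ∃ S, S = ∑ j, x j := ⟨_, rfl⟩
  rw [← hS] at hprop
  have hS0 : S ≠ 0 := by
    intro h0
    apply hz
    funext i
    have := hprop i
    rw [h0, zero_mul, hx] at this
    simp only at this
    exact_mod_cast this
  have h5 := P.u_ind ![z 1, -(z 0), 0] (by
    rw [Fin.sum_univ_three]
    simp only [Matrix.cons_val_zero, Matrix.cons_val_one, Matrix.cons_val_two, Matrix.head_cons,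
      Matrix.tail_cons]
    have g0 := hprop 0
    have g1 := hprop 1
    rw [hx] at g0 g1
    simp only at g0 g1
    push_cast
    rw [g0, g1]
    ring)
  have h6 : z 1 = 0 := by
    have := congrFun h5 0
    simpa using this
  have h7 := hprop 1
  rw [hx] at h7
  simp only [h6, Int.cast_zero] at h7
  rcases mul_eq_zero.1 h7.symm with h8 | h8
  · exact hS0 h8
  · exact absurd h8 (P.u_pos 1).ne'

theorem irr3 {M : Matrix (Fin 3) (Fin 3) ℤ} (P : PD M) :
    Irreducible (M.map (Int.cast : ℤ → ℚ)).charpoly := by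
  have hdeg : (M.map (Int.cast : ℤ → ℚ)).charpoly.natDegree = 3 := by
    rw [Matrix.charpoly_natDegree_eq_dim]
    rfl
  rw [Polynomial.Monic.irreducible_iff_roots_eq_zero_of_degree_le_three
    (Matrix.charpoly_monic _) (by rw [hdeg]; norm_num) (by rw [hdeg])]
  rw [Multiset.eq_zero_iff_forall_notMem]
  intro ν hν
  have h1 := (Polynomial.mem_roots'.1 hν).2
  rw [Polynomial.IsRoot.def, Matrix.eval_charpoly] at h1
  obtain ⟨v, hv0, hv⟩ := Matrix.exists_mulVec_eq_zero_iff.2 h1
  have h2 : ∀ i, ∑ j, (M i j : ℚ) * v j = ν * v i := by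
    intro i
    have h3 := congrFun hv i
    rw [Matrix.sub_mulVec] at h3
    simp only [Pi.sub_apply, Pi.zero_apply] at h3
    have h4 : ((Matrix.scalar (Fin 3)) ν).mulVec v i = ν * v i := by
      simp
    rw [h4] at h3
    have h5 : (M.map (Int.cast : ℤ → ℚ)).mulVec v i = ∑ j, (M i j : ℚ) * v j := rfl
    rw [h5] at h3
    linarith
  -- clear denominators
  obtain ⟨D, hD, z, hz⟩ : ∃ D : ℚ, D ≠ 0 ∧ ∃ z : Fin 3 → ℤ, ∀ i, (z i : ℚ) = D * v i := by
    refine ⟨((v 0).den : ℚ) * (v 1).den * (v 2).den, by positivity,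
      ![(v 0).num * (v 1).den * (v 2).den, (v 1).num * (v 0).den * (v 2).den,
        (v 2).num * (v 0).den * (v 1).den], ?_⟩
    have key : ∀ q : ℚ, (q.num : ℚ) = q * q.den := fun q => (Rat.mul_den_eq_num q).symm
    intro i
    fin_cases i
    · simp
      rw [key (v 0)]
      ring
    · simp
      rw [key (v 1)]
      ring
    · simp
      rw [key (v 2)]
      ring
  refine no_int_eig P z ?_ (ν : ℝ) fun i => ?_
  · intro h0
    apply hv0
    funext i
    have h3 := hz i
    rw [h0] at h3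
    simp only [Pi.zero_apply, Int.cast_zero] at h3
    rcases mul_eq_zero.1 h3.symm with h4 | h4
    · exact absurd h4 hD
    · exact h4
  · have h3 : ∑ j, (M i j : ℚ) * (z j : ℚ) = ν * z i := by
      have h4 := h2 i
      calc ∑ j, (M i j : ℚ) * (z j : ℚ) = D * ∑ j, (M i j : ℚ) * v j := by
            rw [Finset.mul_sum]
            refine Finset.sum_congr rfl fun j _ => ?_
            rw [hz j]
            ring
        _ = ν * z i := by rw [h4, hz i]; ring
    exact_mod_cast h3

theorem pisot_pow {M : Matrix (Fin 3) (Fin 3) ℤ} (hnn : ∀ i j, 0 ≤ M i j) (hM : PisotMat M)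
    {k : ℕ} (hk : 1 ≤ k) : PisotMat (M ^ k) := by
  obtain ⟨P⟩ := Pool.Agent.Q132.PC.exists_PD' M hnn hM
  refine ⟨irr3 (P.pow k hk), ?_, ?_⟩
  · rw [Matrix.det_pow]
    rcases hM.2.1 with h | h <;> rw [h]
    · left; simp
    · rcases Nat.even_or_odd k with h' | h'
      · left; exact h'.neg_one_pow
      · right; exact h'.neg_one_pow
  · obtain ⟨-, -, lam, hlam, hroot, hr⟩ := hM
    have hmap : (M ^ k).map (Int.cast : ℤ → ℂ) = (M.map (Int.cast : ℤ → ℂ)) ^ k := by
      have := map_pow (Int.castRingHom ℂ).mapMatrix M k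
      exact this
    have hspec : ∀ μ : ℂ, ((M ^ k).map (Int.cast : ℤ → ℂ)).charpoly.IsRoot μ →
        ∃ ν : ℂ, (M.map (Int.cast : ℤ → ℂ)).charpoly.IsRoot ν ∧ ν ^ k = μ := by
      intro μ hμ
      rw [hmap, ← Matrix.mem_spectrum_iff_isRoot_charpoly, spectrum.map_pow_of_pos _ hk] at hμ
      obtain ⟨ν, h1, h2⟩ := hμ
      exact ⟨ν, Matrix.mem_spectrum_iff_isRoot_charpoly.1 h1, h2⟩
    refine ⟨lam ^ k, one_lt_pow₀ hlam (by omega), ?_, ?_⟩
    · rw [hmap, ← Matrix.mem_spectrum_iff_isRoot_charpoly, spectrum.map_pow_of_pos _ hk]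
      exact ⟨lam, Matrix.mem_spectrum_iff_isRoot_charpoly.2 hroot, by push_cast; rfl⟩
    · intro μ hμ hne
      obtain ⟨ν, h1, h2⟩ := hspec μ hμ
      have h3 : ν ≠ lam := by
        rintro rfl
        apply hne
        rw [← h2]
        push_cast
        rfl
      obtain ⟨h4, h5⟩ := hr ν h1 h3
      rw [← h2, norm_pow]
      exact ⟨pow_pos h4 k, pow_lt_one₀ h4.le h5 (by omega)⟩

/-- invariance under conjugation -/
theorem pisot_conj {M N A B : Matrix (Fin 3) (Fin 3) ℤ} (hBA : B * A = 1)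
    (h : N = A * M * B) (hM : PisotMat M) : PisotMat N ∧ ∀ μ : ℂ,
      ((M.map (Int.cast : ℤ → ℂ)).charpoly.IsRoot μ →
        (N.map (Int.cast : ℤ → ℂ)).charpoly.IsRoot μ) := by
  have hc : N.charpoly = M.charpoly := by
    rw [h, Matrix.mul_assoc, Matrix.charpoly_mul_comm, Matrix.mul_assoc, hBA, Matrix.mul_one]
  have hcf : ∀ {R : Type} [CommRing R] (f : ℤ →+* R), (N.map f).charpoly = (M.map f).charpoly := by
    intro R _ f
    rw [Matrix.charpoly_map, Matrix.charpoly_map, hc]
  have h1 : (N.map (Int.cast : ℤ → ℂ)).charpoly = (M.map (Int.cast : ℤ → ℂ)).charpoly :=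
    hcf (Int.castRingHom ℂ)
  have h2 : (N.map (Int.cast : ℤ → ℚ)).charpoly = (M.map (Int.cast : ℤ → ℚ)).charpoly :=
    hcf (Int.castRingHom ℚ)
  have h3 : N.det = M.det := by
    rw [h, Matrix.det_mul, Matrix.det_mul, mul_comm, ← mul_assoc, ← Matrix.det_mul, hBA,
      Matrix.det_one, one_mul]
  refine ⟨?_, fun μ hμ => by rw [h1]; exact hμ⟩
  unfold PisotMat
  rw [h1, h2, h3]
  exact hM

end Pool.Agent.Helper65.DG
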