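import Pool.Agent.Helper65.DG.Walk
import Pool.Agent.Helper65.DG.Piso

/-! the Pisot substitution conjecture for the closed paths -/

set_option autoImplicit false

namespace Pool.Agent.Helper65.DG
open Pool.Agent.H812R2.PI Pool.Agent.Helper65.PF
open scoped BigOperators

abbrev F3 := FreeGroup (Fin 3)

theorem norm_fun (f : F3 → F3) (hf : ∀ x y, f (x * y) = f x * f y) (C : ℝ)
    (h : ∀ a, ((f (FreeGroup.of a)).norm : ℝ) ≤ C) (x : F3) :
    ((f x).norm : ℝ) ≤ C * (x.norm : ℝ) := by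
  have h1 : f 1 = 1 := by
    have := hf 1 1
    rw [mul_one] at this
    simpa using this
  have hinv : ∀ x, f x⁻¹ = (f x)⁻¹ := fun x => by
    rw [eq_inv_iff_mul_eq_one, ← hf, inv_mul_cancel, h1]
  have key : ∀ L : List (Fin 3 × Bool), ((f (FreeGroup.mk L)).norm : ℝ) ≤ C * (L.length : ℝ) := by
    intro L
    induction L with
    | nil => rw [← FreeGroup.one_eq_mk, h1]; simp
    | cons c L ih =>
      obtain ⟨a, b⟩ := c
      have h2 : ∃ y : F3, f (FreeGroup.mk ((a, b) :: L)) = y * f (FreeGroup.mk L) ∧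
          (y.norm : ℝ) ≤ C := by
        cases b
        · refine ⟨(f (FreeGroup.of a))⁻¹, ?_, by rw [FreeGroup.norm_inv_eq]; exact h a⟩
          have h3 : FreeGroup.mk ((a, false) :: L) = (FreeGroup.of a)⁻¹ * FreeGroup.mk L := by
            rw [FreeGroup.of, FreeGroup.inv_mk, FreeGroup.mul_mk]
            rfl
          rw [h3, hf, hinv]
        · refine ⟨f (FreeGroup.of a), ?_, h a⟩
          have h3 : FreeGroup.mk ((a, true) :: L) = FreeGroup.of a * FreeGroup.mk L := by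
            rw [FreeGroup.of, FreeGroup.mul_mk]
            rfl
          rw [h3, hf]
      obtain ⟨y, hy, hy2⟩ := h2
      rw [hy, List.length_cons]
      have h4 : ((y * f (FreeGroup.mk L)).norm : ℝ) ≤ (y.norm : ℝ) + (f (FreeGroup.mk L)).norm := by
        exact_mod_cast FreeGroup.norm_mul_le _ _
      push_cast
      linarith
  have := key x.toWord
  rw [FreeGroup.mk_toWord] at this
  exact this

theorem norm_conj (h z : F3) : (h⁻¹ * z * h).norm ≤ 2 * h.norm + z.norm := by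
  have h1 := FreeGroup.norm_mul_le (h⁻¹ * z) h
  have h2 := FreeGroup.norm_mul_le h⁻¹ z
  rw [FreeGroup.norm_inv_eq] at h2
  omega

theorem outer_iter (T : F3 →* F3) (F : F3 → F3) (α : F3 ≃* F3) (g : F3)
    (hF : ∀ x, α (F x) = g * T (α x) * g⁻¹) (K : ℕ) :
    ∃ g' : F3, ∀ x, α (F^[K] x) = g' * T^[K] (α x) * g'⁻¹ := by
  induction K with
  | zero => exact ⟨1, fun x => by simp⟩
  | succ K ih =>
    obtain ⟨g', h⟩ := ih
    refine ⟨g * T g', fun x => ?_⟩
    rw [Function.iterate_succ_apply', hF, h, Function.iterate_succ_apply', map_mul, map_mul,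
      map_inv]
    group

theorem core (T : F3 →* F3) (F : F3 → F3) (α : F3 ≃* F3) (g : F3)
    (hF : ∀ x, α (F x) = g * T (α x) * g⁻¹) (Ψ : F3 →* F3) (K : ℕ)
    (hΨ : ∀ x, T^[K] (Ψ x) = x) (θ B Λ : ℝ) (hθ : 1 < θ) (hθΛ : θ < Λ) (hB : 0 ≤ B)
    (hgr : ∀ (m : ℕ) (y : Fin 3), ((Ψ^[m] (FreeGroup.of y)).norm : ℝ) ≤ B * θ ^ m) :
    ∃ m : ℕ, 1 ≤ m ∧ ∀ a : Fin 3, ∃ x : F3, (F^[K])^[m] x = FreeGroup.of a ∧
      (x.norm : ℝ) < Λ ^ m := by
  obtain ⟨g', hg'⟩ := outer_iter T F α g hF K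
  obtain ⟨Θ', hΘ'⟩ : ∃ Θ' : F3 → F3, Θ' = fun z => Ψ (g'⁻¹ * z * g') := ⟨_, rfl⟩
  obtain ⟨Θ, hΘ⟩ : ∃ Θ : F3 → F3, Θ = fun y => α.symm (Θ' (α y)) := ⟨_, rfl⟩
  have hinv : Function.LeftInverse (F^[K]) Θ := by
    intro y
    apply α.injective
    rw [hg', hΘ]
    simp only
    rw [α.apply_symm_apply, hΘ']
    simp only
    rw [hΨ]
    group
  -- conjugating elements
  obtain ⟨hh, hh0, hh1⟩ : ∃ hh : ℕ → F3, hh 0 = 1 ∧ ∀ m, hh (m + 1) = Ψ^[m + 1] g' * hh m :=
    ⟨fun m => Nat.rec 1 (fun m y => Ψ^[m + 1] g' * y) m, rfl, fun m => rfl⟩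
  have hit : ∀ m z, Θ'^[m] z = (hh m)⁻¹ * Ψ^[m] z * hh m := by
    intro m
    induction m with
    | zero => intro z; simp [hh0]
    | succ m ih =>
      intro z
      rw [Function.iterate_succ_apply, ih, hh1, hΘ']
      simp only
      rw [← Function.iterate_succ_apply Ψ m, iterate_map_mul, iterate_map_mul, iterate_map_inv]
      group
  have hsymm : ∀ m y, Θ^[m] y = α.symm (Θ'^[m] (α y)) := by
    intro m
    induction m with
    | zero => intro y; simp
    | succ m ih =>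
      intro y
      rw [Function.iterate_succ_apply, ih, Function.iterate_succ_apply, hΘ]
      simp only
      rw [α.apply_symm_apply]
  have hΨn : ∀ m z, ((Ψ^[m] z).norm : ℝ) ≤ B * θ ^ m * (z.norm : ℝ) := fun m z =>
    norm_fun (Ψ^[m]) (fun x y => iterate_map_mul Ψ m x y) _ (hgr m) z
  obtain ⟨D, hD⟩ : ∃ D : ℝ, D = B * g'.norm * θ / (θ - 1) := ⟨_, rfl⟩
  have hD0 : 0 ≤ D := by
    rw [hD]
    exact div_nonneg (by positivity) (by linarith)
  have hhn : ∀ m, ((hh m).norm : ℝ) ≤ D * θ ^ m := by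
    intro m
    induction m with
    | zero => rw [hh0]; simpa using hD0
    | succ m ih =>
      rw [hh1]
      have h1 : ((Ψ^[m + 1] g' * hh m).norm : ℝ) ≤ ((Ψ^[m + 1] g').norm : ℝ) + (hh m).norm := by
        exact_mod_cast FreeGroup.norm_mul_le _ _
      have h2 := hΨn (m + 1) g'
      have h3 : D * (θ - 1) = B * g'.norm * θ := by
        rw [hD, div_mul_cancel₀ _ (by linarith : θ - 1 ≠ 0)]
      have h4 : D * θ ^ (m + 1) = D * (θ - 1) * θ ^ m + D * θ ^ m := by ring
      rw [h4, h3]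
      have h5 : B * θ ^ (m + 1) * (g'.norm : ℝ) = B * g'.norm * θ * θ ^ m := by ring
      linarith
  obtain ⟨A₁, hA₁, hα1⟩ : ∃ A₁ : ℝ, 0 ≤ A₁ ∧ ∀ z, ((α.symm z).norm : ℝ) ≤ A₁ * (z.norm : ℝ) := by
    refine ⟨∑ a, ((α.symm (FreeGroup.of a)).norm : ℝ), Finset.sum_nonneg fun a _ =>
      Nat.cast_nonneg _, norm_fun α.symm (fun x y => map_mul α.symm x y) _ fun a => ?_⟩
    exact Finset.single_le_sum (f := fun a => ((α.symm (FreeGroup.of a)).norm : ℝ))
      (fun a _ => Nat.cast_nonneg _) (Finset.mem_univ a)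
  obtain ⟨A₂, hA₂, hα2⟩ : ∃ A₂ : ℝ, 0 ≤ A₂ ∧ ∀ a, ((α (FreeGroup.of a)).norm : ℝ) ≤ A₂ := by
    refine ⟨∑ a, ((α (FreeGroup.of a)).norm : ℝ), Finset.sum_nonneg fun a _ =>
      Nat.cast_nonneg _, fun a => ?_⟩
    exact Finset.single_le_sum (f := fun a => ((α (FreeGroup.of a)).norm : ℝ))
      (fun a _ => Nat.cast_nonneg _) (Finset.mem_univ a)
  obtain ⟨E, hE⟩ : ∃ E : ℝ, E = A₁ * (2 * D + B * A₂) := ⟨_, rfl⟩
  have hΛ0 : 0 < Λ := by linarith
  obtain ⟨m, hm1, hm2⟩ : ∃ m : ℕ, E * (θ / Λ) ^ m < 1 ∧ 1 ≤ m := by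
    have h1 : Filter.Tendsto (fun m : ℕ => E * (θ / Λ) ^ m) Filter.atTop (nhds (E * 0)) :=
      Filter.Tendsto.const_mul _ (tendsto_pow_atTop_nhds_zero_of_lt_one (by positivity)
        ((div_lt_one hΛ0).2 hθΛ))
    rw [mul_zero] at h1
    exact (((tendsto_order.1 h1).2 1 (by norm_num)).and
      (Filter.eventually_ge_atTop 1)).exists
  refine ⟨m, hm2, fun a => ⟨Θ^[m] (FreeGroup.of a), hinv.iterate m _, ?_⟩⟩
  have h1 : ((Θ^[m] (FreeGroup.of a)).norm : ℝ) ≤ E * θ ^ m := by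
    rw [hsymm, hit]
    refine (hα1 _).trans ?_
    have h0 : E * θ ^ m = A₁ * ((2 * D + B * A₂) * θ ^ m) := by rw [hE]; ring
    rw [h0]
    refine mul_le_mul_of_nonneg_left ?_ hA₁
    have h2 : (((hh m)⁻¹ * Ψ^[m] (α (FreeGroup.of a)) * hh m).norm : ℝ) ≤
        2 * (hh m).norm + (Ψ^[m] (α (FreeGroup.of a))).norm := by
      exact_mod_cast norm_conj _ _
    have h3 := hhn m
    have h4 := hΨn m (α (FreeGroup.of a))
    have h5 : B * θ ^ m * ((α (FreeGroup.of a)).norm : ℝ) ≤ B * θ ^ m * A₂ :=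
      mul_le_mul_of_nonneg_left (hα2 a) (by positivity)
    have h6 : (2 * D + B * A₂) * θ ^ m = 2 * (D * θ ^ m) + B * θ ^ m * A₂ := by ring
    rw [h6]
    linarith
  refine lt_of_le_of_lt h1 ?_
  have hpos : 0 < Λ ^ m := by positivity
  have h2 := mul_lt_mul_of_pos_right hm1 hpos
  rw [one_mul, mul_assoc, ← mul_pow, div_mul_cancel₀ _ hΛ0.ne'] at h2
  exact h2

theorem semi_pre {σ : Fin 3 → List (Fin 3)} (hM : PisotMat (inc σ)) (lam : ℝ)
    (hlam : 1 < lam) (hroot : ((inc σ).map (Int.cast : ℤ → ℂ)).charpoly.IsRoot (lam : ℂ))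
    (N : ℕ) (hN : 1 ≤ N) (x : Fin 3 → F3) (hx : ∀ a, endo (iter σ N) (x a) = FreeGroup.of a)
    (h : ∀ a, ((x a).norm : ℝ) < lam ^ N) : SemiConjToral σ := by
  refine semi_inv (m := 1) σ hM lam hlam hroot N hN _ (fox_inv (iter σ N) x hx) fun c => ?_
  rw [pow_one]
  refine lt_of_le_of_lt ?_ (h c)
  rw [Nat.cast_le]
  refine le_trans (Finset.sum_le_sum fun r _ => ?_) (sum_nrm_chn (x c))
  exact nrm_push _ _

/-- matrix of the abelianisation of a homomorphism -/
def abm (f : F3 → F3) : Matrix (Fin 3) (Fin 3) ℤ := Matrix.of fun i a => abf (f (FreeGroup.of a)) i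

theorem abf_hom (f : F3 → F3) (hf : ∀ x y, f (x * y) = f x * f y) (x : F3) :
    abf (f x) = (abm f).mulVec (abf x) := by
  have h1 : f 1 = 1 := by
    have := hf 1 1
    rw [mul_one] at this
    simpa using this
  have hinv : ∀ x, f x⁻¹ = (f x)⁻¹ := fun x => by
    rw [eq_inv_iff_mul_eq_one, ← hf, inv_mul_cancel, h1]
  have hof : ∀ a, abf (f (FreeGroup.of a)) = (abm f).mulVec (ev a) := by
    intro a
    funext i
    unfold abm Matrix.mulVec dotProduct ev
    simp
  have key : ∀ L : List (Fin 3 × Bool), abf (f (FreeGroup.mk L)) =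
      (abm f).mulVec (abf (FreeGroup.mk L)) := by
    intro L
    induction L with
    | nil => rw [← FreeGroup.one_eq_mk, h1, abf_one, Matrix.mulVec_zero]
    | cons c L ih =>
      obtain ⟨a, b⟩ := c
      cases b
      · have h3 : FreeGroup.mk ((a, false) :: L) = (FreeGroup.of a)⁻¹ * FreeGroup.mk L := by
          rw [FreeGroup.of, FreeGroup.inv_mk, FreeGroup.mul_mk]
          rfl
        rw [h3, hf, hinv, abf_mul, abf_mul, abf_inv, abf_inv, ih, hof, abf_of,
          Matrix.mulVec_add, Matrix.mulVec_neg]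
      · have h3 : FreeGroup.mk ((a, true) :: L) = FreeGroup.of a * FreeGroup.mk L := by
          rw [FreeGroup.of, FreeGroup.mul_mk]
          rfl
        rw [h3, hf, abf_mul, abf_mul, ih, hof, abf_of, Matrix.mulVec_add]
  have := key x.toWord
  rw [FreeGroup.mk_toWord] at this
  exact this

theorem abm_comp (f f' : F3 → F3) (hf : ∀ x y, f (x * y) = f x * f y) :
    abm (fun x => f (f' x)) = abm f * abm f' := by
  ext i a
  have h := congrFun (abf_hom f hf (f' (FreeGroup.of a))) i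
  rw [Matrix.mul_apply]
  exact h

theorem abm_id : abm (fun x => x) = 1 := by
  ext i a
  unfold abm
  rw [Matrix.of_apply, abf_of, Matrix.one_apply]
  unfold ev
  rfl

theorem abm_endo (S : Fin 3 → List (Fin 3)) : abm (endo S) = inc S := by
  ext i a
  unfold abm
  rw [Matrix.of_apply, endo_of, abf_wd]
  rfl

theorem nonneg_MP (p : List (Fin 8)) (i j : Fin 3) : 0 ≤ MP p i j := by
  rw [← inc_subP]
  unfold inc
  positivity

def lt3 (y : Fin 3) : A := Fin.ofNat 8 (y.val + 1)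

theorem lt3_ok : ∀ y : Fin 3, lt3 y ≠ 0 ∧ lt3 y ≠ 7 ∧ gv (lt3 y) = FreeGroup.of y := by
  decide +kernel

theorem psiH_rp (W : List (Fin 8)) (m : ℕ) (x : F3) : psiH (rp W m) x = (psiH W)^[m] x := by
  induction m generalizing x with
  | zero => rfl
  | succ m ih => rw [rp, psiH_append, ih, Function.iterate_succ_apply]

theorem T_right (p : List (Fin 8)) (K : ℕ) (x : F3) :
    (endo (subP p))^[K] (psiH (rp p K) x) = x := by
  induction K generalizing x with
  | zero => rfl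
  | succ K ih => rw [rp, psiH_append, Function.iterate_succ_apply', ih, endo_subP_psi]

/-- the main theorem -/
theorem semi_walk (σ : Fin 3 → List (Fin 3)) (hM : PisotMat (inc σ)) (k : ℕ) (hk : 1 ≤ k)
    (r l : Fin 3) (hrl : r ≠ l) (τ : Fin 3 → List (Fin 3)) (π : Equiv.Perm (Fin 3))
    (hw : Walk r l τ (π r) (π l)) (α : F3 ≃* F3) (g : F3)
    (h : ∀ a, α (endo (iter σ k) (FreeGroup.of a)) =
      g * endo (fun b => τ (π b)) (α (FreeGroup.of a)) * g⁻¹) : SemiConjToral σ := by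
  obtain ⟨p, ρ, hρ, hp, hmap⟩ := Walk_closed π hrl hw
  have hbij : Function.Bijective ρ := Finite.injective_iff_bijective.1 hρ
  obtain ⟨R, hR⟩ : ∃ R : F3 ≃* F3, ∀ a, R (FreeGroup.of a) = FreeGroup.of (ρ a) :=
    ⟨FreeGroup.freeGroupCongr (Equiv.ofBijective ρ hbij), fun a => by simp⟩
  have hRwd : ∀ w : List (Fin 3), R (Pool.Agent.Helper65.PF.wd w) =
      Pool.Agent.Helper65.PF.wd (w.map ρ) := by
    intro w
    induction w with
    | nil => simp [Pool.Agent.Helper65.PF.wd]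
    | cons a w ih => rw [wd_cons, map_mul, hR, ih, List.map_cons, wd_cons]
  have hRT : ∀ x, R (endo (fun b => τ (π b)) x) = endo (subP p) (R x) := by
    have h1 : R.toMonoidHom.comp (endo (fun b => τ (π b))) =
        (endo (subP p)).comp R.toMonoidHom := by
      refine FreeGroup.ext_hom _ _ fun a => ?_
      rw [MonoidHom.comp_apply, MonoidHom.comp_apply]
      show R (endo (fun b => τ (π b)) (FreeGroup.of a)) = endo (subP p) (R (FreeGroup.of a))
      rw [endo_of, hR, endo_of, hRwd, hmap]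
    exact fun x => DFunLike.congr_fun h1 x
  obtain ⟨β, hβ⟩ : ∃ β : F3 ≃* F3, β = α.trans R := ⟨_, rfl⟩
  have hF : ∀ x, β (endo (iter σ k) x) = R g * endo (subP p) (β x) * (R g)⁻¹ := by
    have h1 : β.toMonoidHom.comp (endo (iter σ k)) =
        ((MulAut.conj (R g)).toMonoidHom.comp (endo (subP p))).comp β.toMonoidHom := by
      refine FreeGroup.ext_hom _ _ fun a => ?_
      rw [MonoidHom.comp_apply, MonoidHom.comp_apply, MonoidHom.comp_apply]
      show β (endo (iter σ k) (FreeGroup.of a)) =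
        MulAut.conj (R g) (endo (subP p) (β (FreeGroup.of a)))
      rw [MulAut.conj_apply, hβ]
      simp only [MulEquiv.trans_apply]
      rw [h, map_mul, map_mul, map_inv, hRT]
    exact fun x => DFunLike.congr_fun h1 x
  -- matrices
  have hA1 : abm β.symm * abm β = 1 := by
    rw [← abm_comp _ _ fun x y => map_mul β.symm x y, ← abm_id]
    congr 1
    funext x
    exact β.symm_apply_apply x
  have hA2 : abm β * abm β.symm = 1 := by
    rw [← abm_comp _ _ fun x y => map_mul β x y, ← abm_id]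
    congr 1
    funext x
    exact β.apply_symm_apply x
  have hcomm : abm β * (inc σ) ^ k = MP p * abm β := by
    rw [← inc_iter, ← inc_subP, ← abm_endo, ← abm_endo,
      ← abm_comp _ _ fun x y => map_mul β x y, ← abm_comp _ _ fun x y => map_mul _ x y]
    ext i a
    unfold abm
    rw [Matrix.of_apply, Matrix.of_apply]
    show abf (β (endo (iter σ k) (FreeGroup.of a))) i =
      abf (endo (subP p) (β (FreeGroup.of a))) i
    rw [hF, abf_mul, abf_mul, abf_inv]
    simp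
  have hN : MP p = abm β * (inc σ) ^ k * abm β.symm := by
    rw [hcomm, Matrix.mul_assoc, hA2, Matrix.mul_one]
  have hnn : ∀ i j, 0 ≤ inc σ i j := fun i j => by unfold inc; positivity
  obtain ⟨hMp, hrt⟩ := pisot_conj hA1 hN (pisot_pow hnn hM hk)
  obtain ⟨P⟩ := Pool.Agent.Q132.PC.exists_PD' (MP p) (nonneg_MP p) hMp
  obtain ⟨lam, hlam, hroot, -⟩ := hM.2.2
  have hlk : lam ^ k = P.lam := by
    refine lam_eq hMp P (lam ^ k) (one_lt_pow₀ hlam (by omega)) (hrt _ ?_)
    have hmap' : ((inc σ) ^ k).map (Int.cast : ℤ → ℂ) = ((inc σ).map (Int.cast : ℤ → ℂ)) ^ k := by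
      have := map_pow (Int.castRingHom ℂ).mapMatrix (inc σ) k
      exact this
    rw [hmap', ← Matrix.mem_spectrum_iff_isRoot_charpoly, spectrum.map_pow_of_pos _ hk]
    exact ⟨lam, Matrix.mem_spectrum_iff_isRoot_charpoly.2 hroot, by push_cast; rfl⟩
  obtain ⟨K, θ, B, hK, hθ, hθΛ, hB, hgr⟩ := growth p 0 (by norm_num) hp P (det_MP p)
  obtain ⟨m, hm, hx⟩ := core (endo (subP p)) (endo (iter σ k)) β (R g) hF (psiH (rp p K)) K
    (T_right p K) θ B (P.lam ^ K) hθ hθΛ hB (by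
      intro m y
      obtain ⟨h0, h7, hy⟩ := lt3_ok y
      have h1 := hgr (lt3 y) h0 h7 m
      have h2 := norm_gl (imP (rp (rp p K) m) [lt3 y])
      rw [gl_imP] at h2
      have h3 : gl [lt3 y] = FreeGroup.of y := by simp [gl, hy]
      rw [h3, ← psiH_apply, psiH_rp] at h2
      have h4 : (((psiH (rp p K))^[m] (FreeGroup.of y)).norm : ℝ) ≤
          ((imP (rp (rp p K) m) [lt3 y]).length : ℝ) := by exact_mod_cast h2
      linarith)
  choose x hx1 hx2 using hx
  have hpos : 0 < k * K * m := by positivity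
  refine semi_pre hM lam hlam hroot (k * K * m) (by omega) x (fun a => ?_) fun a => ?_
  · rw [endo_iter, Function.iterate_mul, Function.iterate_mul]
    have h1 : (endo σ)^[k] = endo (iter σ k) := funext fun y => (endo_iter σ k y).symm
    rw [h1]
    exact hx1 a
  · have h1 := hx2 a
    rw [← hlk, ← pow_mul, ← pow_mul, ← mul_assoc] at h1
    exact h1

end Pool.Agent.Helper65.DG
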