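import Pool.Agent.Helper65.DG.Pad

/-! the local rules compute the inverse automorphisms -/

set_option autoImplicit false

namespace Pool.Agent.Helper65.DG
open FreeGroup

/-- value of a letter in the free group -/
def gv (x : A) : FreeGroup (Fin 3) :=
  if x.val = 1 then of 0 else if x.val = 2 then of 1 else if x.val = 3 then of 2 else
  if x.val = 4 then (of 2)⁻¹ else if x.val = 5 then (of 1)⁻¹ else
  if x.val = 6 then (of 0)⁻¹ else 1

def gl (l : List A) : FreeGroup (Fin 3) := (l.map gv).prod

/-- images of the generators under the inverse automorphism of the edge -/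
def psiI (e : Fin 8) (y : Fin 3) : FreeGroup (Fin 3) :=
  if y = jY e then
    (if eK e = 0 then (of (pY e (iY e)))⁻¹ * of (pY e y) else of (pY e y) * (of (pY e (iY e)))⁻¹)
  else of (pY e y)

def psi (e : Fin 8) : FreeGroup (Fin 3) →* FreeGroup (Fin 3) := FreeGroup.lift (psiI e)

def corr (e : Fin 8) (a b : A) : FreeGroup (Fin 3) :=
  if eK e = 0 ∧ ((a.val = eI e ∧ b.val = eJ e) ∨ (a.val + eJ e = 7 ∧ b.val + eI e = 7))
    then (of (pY e (iY e)))⁻¹ else
  if eK e = 1 ∧ ((a.val = eJ e ∧ b.val = eI e) ∨ (a.val + eI e = 7 ∧ b.val + eJ e = 7))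
    then of (pY e (iY e)) else 1

def gv' (e : Fin 8) (x : A) : FreeGroup (Fin 3) :=
  if x.val = 1 then psiI e 0 else if x.val = 2 then psiI e 1 else if x.val = 3 then psiI e 2 else
  if x.val = 4 then (psiI e 2)⁻¹ else if x.val = 5 then (psiI e 1)⁻¹ else
  if x.val = 6 then (psiI e 0)⁻¹ else 1

theorem psi_gv (e : Fin 8) (x : A) : psi e (gv x) = gv' e x := by
  unfold gv gv' psi
  split_ifs <;> simp

theorem local_id : ∀ e a x b : Fin 8,
    gl (out e a x b) = (corr e a x)⁻¹ * gv' e x * corr e x b := by decide +kernel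

theorem corr_0 : ∀ e x : Fin 8, corr e 0 x = 1 := by decide +kernel
theorem corr_7 : ∀ e x : Fin 8, corr e x 7 = 1 := by decide +kernel

theorem gl_append (l r : List A) : gl (l ++ r) = gl l * gl r := by simp [gl]

theorem gl_imw' (e : Fin 8) (r : List A) (a x : A) :
    gl (imw e a (x :: r)) = (corr e a x)⁻¹ * psi e (gl (x :: r)) := by
  induction r generalizing a x with
  | nil =>
    simp only [imw]
    rw [local_id, corr_7]
    simp [gl, psi_gv]
  | cons y r ih =>
    simp only [imw]
    rw [gl_append, local_id, ih]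
    have : gl (x :: y :: r) = gv x * gl (y :: r) := by simp [gl]
    rw [this, _root_.map_mul, psi_gv]
    group

theorem gl_imw (e : Fin 8) (v : List A) : gl (imw e 0 v) = psi e (gl v) := by
  match v with
  | [] => simp [imw, gl]
  | x :: r => rw [gl_imw', corr_0, inv_one, one_mul]

def psiP : List (Fin 8) → FreeGroup (Fin 3) → FreeGroup (Fin 3)
  | [], g => g
  | e :: p, g => psiP p (psi e g)

theorem gl_imP (p : List (Fin 8)) (v : List A) : gl (imP p v) = psiP p (gl v) := by
  induction p generalizing v with
  | nil => rfl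
  | cons e p ih => rw [imP, ih, gl_imw]; rfl

theorem norm_gv (x : A) : (gv x).norm ≤ 1 := by
  unfold gv
  split_ifs <;> simp

theorem norm_gl (l : List A) : (gl l).norm ≤ l.length := by
  induction l with
  | nil => simp [gl]
  | cons x l ih =>
    have h1 : gl (x :: l) = gv x * gl l := by simp [gl]
    rw [h1, List.length_cons]
    have h2 := FreeGroup.norm_mul_le (gv x) (gl l)
    have h3 := norm_gv x
    omega

end Pool.Agent.Helper65.DG
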