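import Pool.Agent.Helper65.DG.Coh

/-! long words see slack -/

set_option autoImplicit false

namespace Pool.Agent.Helper65.DG
open Pool.Agent.H812R2.PI
open scoped BigOperators

theorem Q_split (p : List (Fin 8)) (r : List (Fin 8)) : ∀ (q q' : ℕ), Pth q p q' → ∀ s < 16,
    sQ s = q → ∀ u : List A, Q (p ++ r) s u →
    ∃ t < 16, sQ t = q' ∧ sR t ≤ sR s - p.length ∧ Q r t (stpP p u) := by
  induction p with
  | nil =>
    intro q q' hp s hs hq u hu
    have : q = q' := hp
    exact ⟨s, hs, by rw [hq, this], by simp, hu⟩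
  | cons e p ih =>
    intro q q' hp s hs hq u hu
    obtain ⟨h1, h2, t, h3, h4⟩ := hu
    obtain ⟨g1, g2, g3⟩ := okst_facts h3
    obtain ⟨t', k1, k2, k3, k4⟩ := ih (eT e) q' hp.2 t g1 g2 (stp e u) h4
    refine ⟨t', k1, k2, ?_, k4⟩
    rw [List.length_cons]
    omega

theorem Q_long (p : List (Fin 8)) (r : List (Fin 8)) : ∀ Lc : ℕ, ∃ L : ℕ, ∀ (q q' : ℕ),
    Pth q p q' → ∀ s < 16, sQ s = q → ∀ u : List A, Q (p ++ r) s u → L ≤ u.length →
    Lc ≤ (stpP p u).length := by
  induction p with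
  | nil => exact fun Lc => ⟨Lc, fun q q' _ s _ _ u _ hu => hu⟩
  | cons e p ih =>
    intro Lc
    obtain ⟨L, hL⟩ := ih Lc
    refine ⟨2 * L + 3, fun q q' hp s hs hq u hu hlen => ?_⟩
    obtain ⟨h1, h2, t, h3, h4⟩ := hu
    obtain ⟨g1, g2, g3⟩ := okst_facts h3
    refine hL (eT e) q' hp.2 t g1 g2 (stp e u) h4 ?_
    have h5 : Win (SS (eS e)) u = true := by
      have := CB_S hs h1
      rw [hq, hp.1] at this
      exact this
    have h6 := stp_ge e u h5
    omega

theorem sR_le : ∀ s : Fin 16, sR s.val ≤ 2 := by decide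

/-- **long words see slack** -/
theorem hit (w : List (Fin 8)) (q : ℕ) (hq : q < 2) (hw : Pth q w q) (P : PD (MP w))
    (hdet : (MP w).det = 1 ∨ (MP w).det = -1) :
    ∃ K L : ℕ, 1 ≤ K ∧ 1 ≤ L ∧ ∀ u : List A, L ≤ u.length → Win (CB q) u = true →
      ¬ SF (rp w K) u := by
  obtain ⟨k, Lc, hc⟩ := coh_lemma w q hw P hdet
  have hw0 : w ≠ [] := by
    rintro rfl
    have h1 := P.M_u 0
    have h2 := P.lam_gt
    have h3 := P.u_pos 0
    simp only [MP, Matrix.one_apply] at h1
    rw [Finset.sum_eq_single 0] at h1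
    · simp at h1
      nlinarith
    · intro b _ hb
      simp [hb.symm]
    · simp
  have hlen : 2 ≤ (rp w 2).length := by
    have := List.length_pos_of_ne_nil hw0
    simp only [rp, List.length_append, List.length_nil]
    omega
  have hsq : sQ q = q := by interval_cases q <;> rfl
  obtain ⟨L1, hL1⟩ := Q_long (rp w 2) (rp w k) Lc
  obtain ⟨L0, hL0⟩ := Qex (rp w (2 + k)) q q (Pth_rp hw _) q (by omega) hsq L1
  refine ⟨2 + k, L0 + 1, by omega, by omega, fun u hu hW hSF => ?_⟩
  obtain ⟨u', -, g2, g3⟩ := hL0 u (by omega) hW hSF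
  rw [rp_add] at g3
  have g4 := hL1 q q (Pth_rp hw 2) q (by omega) hsq u' g3 g2
  obtain ⟨t, k1, k2, k3, k4⟩ := Q_split (rp w 2) (rp w k) q q (Pth_rp hw 2) q (by omega) hsq u' g3
  have k5 := sR_le ⟨q, by omega⟩
  have k6 := hc t k1 k2 (by simp only at k5; omega) _ k4
  omega

/-! total slack -/

noncomputable def Slk (x : Fin 3 → ℝ) : List (Fin 8) → List A → ℝ
  | [], _ => 0
  | e :: p, u => ∑ y, (slW e y u : ℝ) * MvP p x (pY e y) + Slk x p (stp e u)

theorem Slk_nonneg {x : Fin 3 → ℝ} (hx : ∀ y, 0 ≤ x y) (p : List (Fin 8)) (u : List A) :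
    0 ≤ Slk x p u := by
  induction p generalizing u with
  | nil => exact le_rfl
  | cons e p ih =>
    refine add_nonneg (Finset.sum_nonneg fun y _ => mul_nonneg (Nat.cast_nonneg _) ?_) (ih _)
    exact MvP_nonneg p x hx _

theorem Slk_append {x : Fin 3 → ℝ} (hx : ∀ y, 0 ≤ x y) (p : List (Fin 8)) (l r : List A) :
    Slk x p l + Slk x p r ≤ Slk x p (l ++ r) := by
  induction p generalizing l r with
  | nil => simp [Slk]
  | cons e p ih =>
    simp only [Slk]
    obtain ⟨m, hm⟩ := stp_append e l r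
    have h1 := ih (stp e l ++ m) (stp e r)
    have h2 := ih (stp e l) m
    have h3 := Slk_nonneg hx p m
    rw [← hm] at h1
    have h4 : ∑ y, (slW e y l : ℝ) * MvP p x (pY e y) + ∑ y, (slW e y r : ℝ) * MvP p x (pY e y) ≤
        ∑ y, (slW e y (l ++ r) : ℝ) * MvP p x (pY e y) := by
      rw [← Finset.sum_add_distrib]
      refine Finset.sum_le_sum fun y _ => ?_
      rw [← add_mul]
      refine mul_le_mul_of_nonneg_right ?_ (MvP_nonneg p x hx _)
      exact_mod_cast slW_append e y l r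
    linarith

theorem Slk_infix {x : Fin 3 → ℝ} (hx : ∀ y, 0 ≤ x y) (p : List (Fin 8)) {l r : List A}
    (h : l <:+: r) : Slk x p l ≤ Slk x p r := by
  obtain ⟨a, b, rfl⟩ := h
  have h1 := Slk_append hx p (a ++ l) b
  have h2 := Slk_append hx p a l
  have h3 := Slk_nonneg hx p a
  have h4 := Slk_nonneg hx p b
  linarith

theorem Slk_pos {x : Fin 3 → ℝ} (hx : ∀ y, 0 < x y) (p : List (Fin 8)) :
    ∃ c : ℝ, 0 < c ∧ ∀ u : List A, ¬ SF p u → c ≤ Slk x p u := by
  classical
  induction p with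
  | nil => exact ⟨1, one_pos, fun u h => absurd trivial h⟩
  | cons e p ih =>
    obtain ⟨c, hc, h⟩ := ih
    obtain ⟨i0, -, hi0⟩ := Finset.exists_min_image (Finset.univ : Finset (Fin 3)) (MvP p x)
      Finset.univ_nonempty
    have hm : 0 < MvP p x i0 := MvP_pos p x hx i0
    have hnn : ∀ y, 0 ≤ x y := fun y => (hx y).le
    refine ⟨min c (MvP p x i0), lt_min hc hm, fun u hu => ?_⟩
    by_cases h1 : ∀ y, slW e y u = 0
    · have h2 : ¬ SF p (stp e u) := fun h3 => hu ⟨h1, h3⟩
      have h3 := h _ h2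
      simp only [Slk]
      have h4 : 0 ≤ ∑ y, (slW e y u : ℝ) * MvP p x (pY e y) :=
        Finset.sum_nonneg fun y _ => mul_nonneg (Nat.cast_nonneg _) (MvP_nonneg p x hnn _)
      linarith [min_le_left c (MvP p x i0)]
    · push Not at h1
      obtain ⟨y, hy⟩ := h1
      simp only [Slk]
      have h2 := Slk_nonneg hnn p (stp e u)
      have h3 : (slW e y u : ℝ) * MvP p x (pY e y) ≤
          ∑ y, (slW e y u : ℝ) * MvP p x (pY e y) :=
        Finset.single_le_sum (f := fun y => (slW e y u : ℝ) * MvP p x (pY e y))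
          (fun z _ => mul_nonneg (Nat.cast_nonneg _) (MvP_nonneg p x hnn _)) (Finset.mem_univ y)
      have h4 : (1 : ℝ) ≤ slW e y u := by exact_mod_cast Nat.one_le_iff_ne_zero.2 hy
      have h5 := hi0 (pY e y) (Finset.mem_univ _)
      have h6 : MvP p x i0 ≤ (slW e y u : ℝ) * MvP p x (pY e y) := by nlinarith
      linarith [min_le_right c (MvP p x i0)]

theorem chunk {x : Fin 3 → ℝ} (hx : ∀ y, 0 ≤ x y) (p : List (Fin 8)) (S L : ℕ) (c : ℝ)
    (h : ∀ u : List A, L ≤ u.length → Win S u = true → c ≤ Slk x p u) :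
    ∀ (m : ℕ) (v : List A), m * L ≤ v.length → Win S v = true → m * c ≤ Slk x p v := by
  intro m
  induction m with
  | zero =>
    intro v _ _
    simpa using Slk_nonneg hx p v
  | succ m ih =>
    intro v hv hW
    have hv' : m * L + L ≤ v.length := by
      have : (m + 1) * L = m * L + L := by ring
      omega
    have h1 : v = v.take L ++ v.drop L := (List.take_append_drop L v).symm
    have h2 := Slk_append hx p (v.take L) (v.drop L)
    rw [← h1] at h2
    have h3 := h (v.take L) (by rw [List.length_take]; omega)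
      (Win_left _ (v.drop L) (by rw [← h1]; exact hW))
    have h4 := ih (v.drop L) (by rw [List.length_drop]; omega)
      (Win_right (v.take L) _ (by rw [← h1]; exact hW))
    push_cast
    linarith

end Pool.Agent.Helper65.DG
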