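import Pool.Agent.Helper65.DG.Hit

/-! whole words: padding, growth -/

set_option autoImplicit false

namespace Pool.Agent.Helper65.DG
open Pool.Agent.H812R2.PI
open scoped BigOperators

def imw (e : Fin 8) : A → List A → List A
  | _, [] => []
  | a, [x] => out e a x 7
  | a, x :: y :: r => out e a x y ++ imw e x (y :: r)

theorem out_zero : ∀ e a b : Fin 8, out e a 0 b = [0] := by decide +kernel
theorem out_seven : ∀ e a b : Fin 8, out e a 7 b = [7] := by decide +kernel

theorem emit_pad (e : Fin 8) (r : List A) (a x : A) :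
    emit e a x (r ++ [7, 7, 7, 7]) = imw e a (x :: r) ++ [7, 7, 7] := by
  induction r generalizing a x with
  | nil => simp [emit, imw, out_seven]
  | cons y r ih => simp only [List.cons_append, emit, imw, ih, List.append_assoc]

theorem emit_start (e : Fin 8) (v : List A) :
    emit e 0 0 (v ++ [7, 7, 7, 7]) = 0 :: (imw e 0 v ++ [7, 7, 7]) := by
  match v with
  | [] => simp [emit, imw, out_seven, out_zero]
  | x :: r =>
    simp only [List.cons_append, emit, emit_pad, out_zero]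
    rfl

theorem add7 (S : ℕ) (h7 : S.testBit (cd 7 7 7 7) = true) (l : List A) (a b c : A)
    (h : W3 S a b c (l ++ [7, 7, 7]) = true) : W3 S a b c (l ++ [7, 7, 7, 7]) = true := by
  induction l generalizing a b c with
  | nil =>
    simp only [List.nil_append, W3, Bool.and_eq_true, and_true] at h ⊢
    exact ⟨h.1, h.2.1, h.2.2, h7⟩
  | cons d l ih =>
    simp only [List.cons_append, W3, Bool.and_eq_true] at h ⊢
    exact ⟨h.1, ih b c d h.2⟩

theorem chk_pads : ∀ e : Fin 8, (SS (eT e)).testBit (cd 7 7 7 7) = true ∧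
    ku (rt e).2 0 = 0 ∧ ko (rt e).2 0 = 512 ∧ kr (rt e).2 0 = 0 ∧ 0 < (rt e).1 ∧
    lst e 0 0 0 = 0 := by decide +kernel

def Lang (q : ℕ) (v : List A) : Prop :=
  W3 (SS q) 0 0 0 (v ++ [7, 7, 7, 7]) = true ∧ Int' v

theorem out_int : ∀ e a x b : Fin 8, x ≠ 0 ∧ x ≠ 7 → ∀ y ∈ out e a x b, y ≠ 0 ∧ y ≠ 7 := by
  decide +kernel

theorem imw_int (e : Fin 8) (a : A) (v : List A) (h : Int' v) : Int' (imw e a v) := by
  induction v generalizing a with
  | nil => exact h
  | cons x r ih =>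
    match r, ih, h with
    | [], _, h => exact out_int e a x 7 (h x (by simp))
    | y :: r, ih, h =>
      intro z hz
      simp only [imw, List.mem_append] at hz
      rcases hz with hz | hz
      · exact out_int e a x y (h x (by simp)) z hz
      · exact ih x (fun t ht => h t (List.mem_cons_of_mem _ ht)) z hz

theorem Lang_imw (e : Fin 8) (v : List A) (h : Lang (eS e) v) : Lang (eT e) (imw e 0 v) := by
  refine ⟨?_, imw_int e 0 v h.2⟩
  obtain ⟨h7, k1, k2, k3, k4, -⟩ := chk_pads e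
  apply add7 _ h7
  have hc := chk_R e
  unfold cR at hc
  have z1 : a1 0 = 0 := rfl
  have z2 : a2 0 = 0 := rfl
  have z3 : a3 0 = 0 := rfl
  obtain ⟨j, -, hjr, -, -, hj⟩ := run hc (v ++ [7, 7, 7, 7]) [] 0 k4
    (by rw [List.append_nil, k1, z1, z2, z3]; exact h.1)
  rw [k3] at hjr hj
  obtain ⟨-, -, hW⟩ := hj (Nat.le_zero.1 hjr)
  rw [k1, k2, z2, z3, emit_start] at hW
  have hd : dec 512 = [0, 0, 0] := rfl
  rw [hd] at hW
  have hW' : Win (SS (eT e)) (0 :: 0 :: 0 :: 0 :: (imw e 0 v ++ [7, 7, 7])) = true := hW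
  exact Win_tail hW'

theorem stp_imw (e : Fin 8) (v : List A) : stp e v <:+: imw e 0 v := by
  have h1 : ∀ (r : List A) (a b : A), emit e a b r <+: imw e a (b :: r) := by
    intro r
    induction r with
    | nil => exact fun a b => List.nil_prefix
    | cons z r ih =>
      intro a b
      simp only [emit, imw]
      exact (List.prefix_append_right_inj _).2 (ih b z)
  match v with
  | [] => exact List.nil_infix
  | [_] => exact List.nil_infix
  | a :: b :: r =>
    simp only [stp, imw]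
    exact (h1 r a b).isInfix.trans (List.suffix_append _ _).isInfix

/-- weighted length -/
def Ph (q : ℕ) (v : List A) (y : Fin 3) : ℕ := gs q y 0 (v ++ [7, 7, 7])

theorem cg_snoc (e : Fin 8) (y : Fin 3) (z : A) (r : List A) (b c : A) :
    cg e y b c (r ++ [z]) = lhs e y b c + (gs (eS e) y c r +
      if y = jY e then gs (eS e) (iY e) c r else 0) := by
  induction r generalizing b c with
  | nil => simp [cg, gs]
  | cons d r ih =>
    simp only [List.cons_append, cg, ih, gs]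
    rw [lhs_eq e y c d]
    split_ifs <;> omega

theorem pad_dom (e : Fin 8) (y : Fin 3) (v : List A) (h : Lang (eS e) v) :
    Ph (eT e) (imw e 0 v) (pY e y) + slW e y v ≤
      Ph (eS e) v y + (if y = jY e then Ph (eS e) v (iY e) else 0) + 200 := by
  have h1 := dom e y (v ++ [7, 7, 7, 7]) 0 0 0 h.1
  obtain ⟨-, -, -, -, -, k⟩ := chk_pads e
  rw [k, emit_start] at h1
  have h2 : gs (eT e) (pY e y) 0 (0 :: (imw e 0 v ++ [7, 7, 7])) =
    tau (eT e) 0 0 (pY e y) + Ph (eT e) (imw e 0 v) (pY e y) := rfl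
  have h3 : cg e y 0 0 (v ++ [7, 7, 7, 7]) = lhs e y 0 0 + (Ph (eS e) v y +
      if y = jY e then Ph (eS e) v (iY e) else 0) := by
    have := cg_snoc e y 7 (v ++ [7, 7, 7]) 0 0
    rw [List.append_assoc] at this
    exact this
  have h4 : lhs e y 0 0 ≤ 62 := by
    rw [lhs_eq]
    have g1 := tau_le (eS e) 0 0 y
    have g2 := tau_le (eS e) 0 0 (iY e)
    split_ifs <;> omega
  have h5 : slW e y v ≤ slS e y 0 0 0 (v ++ [7, 7, 7, 7]) := by
    have g1 := slW_append e y ([0, 0, 0] ++ v) [7, 7, 7, 7]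
    have g2 := slW_append e y [0, 0, 0] v
    have g3 : slW e y (([0, 0, 0] ++ v) ++ [7, 7, 7, 7]) = slS e y 0 0 0 (v ++ [7, 7, 7, 7]) := rfl
    omega
  have h6 := pot_le e y (cd3 0 0 0)
  omega

/-- pairing -/
noncomputable def Pr (q : ℕ) (v : List A) (x : Fin 3 → ℝ) : ℝ := ∑ y, (Ph q v y : ℝ) * x y

theorem Pr_step (e : Fin 8) (v : List A) (x : Fin 3 → ℝ) (hx : ∀ y, 0 ≤ x y)
    (h : Lang (eS e) v) :
    Pr (eT e) (imw e 0 v) x + ∑ y, (slW e y v : ℝ) * x (pY e y) ≤
      Pr (eS e) v (Mv e x) + 200 * ∑ y, x y := by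
  have h0 : Pr (eS e) v (Mv e x) = ∑ y, ((Ph (eS e) v y : ℝ) +
      if y = jY e then (Ph (eS e) v (iY e) : ℝ) else 0) * x (pY e y) := by
    unfold Pr Mv
    simp only [mul_add, add_mul, Finset.sum_add_distrib, mul_ite, ite_mul, mul_zero, zero_mul,
      Finset.sum_ite_eq', Finset.mem_univ, if_true]
  have h1 : Pr (eT e) (imw e 0 v) x =
      ∑ y, (Ph (eT e) (imw e 0 v) (pY e y) : ℝ) * x (pY e y) := by
    unfold Pr
    exact ((pY_bij e).sum_comp fun y => (Ph (eT e) (imw e 0 v) y : ℝ) * x y).symm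
  have h2 : ∑ y, x y = ∑ y, x (pY e y) := ((pY_bij e).sum_comp x).symm
  rw [h0, h1, h2, Finset.mul_sum, ← Finset.sum_add_distrib, ← Finset.sum_add_distrib]
  refine Finset.sum_le_sum fun y _ => ?_
  have h3 : (Ph (eT e) (imw e 0 v) (pY e y) : ℝ) + (slW e y v : ℝ) ≤
      (Ph (eS e) v y : ℝ) + (if y = jY e then (Ph (eS e) v (iY e) : ℝ) else 0) + 200 := by
    exact_mod_cast pad_dom e y v h
  have h4 := mul_le_mul_of_nonneg_right h3 (hx (pY e y))
  linarith

def imP : List (Fin 8) → List A → List A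
  | [], v => v
  | e :: p, v => imP p (imw e 0 v)

theorem Lang_imP (p : List (Fin 8)) : ∀ q q' : ℕ, Pth q p q' → ∀ v, Lang q v →
    Lang q' (imP p v) := by
  induction p with
  | nil =>
    intro q q' hp v hv
    have : q = q' := hp
    rw [← this]
    exact hv
  | cons e p ih =>
    intro q q' hp v hv
    refine ih (eT e) q' hp.2 _ (Lang_imw e v ?_)
    rw [← hp.1]
    exact hv

theorem Pr_path (p : List (Fin 8)) (x : Fin 3 → ℝ) (hx : ∀ y, 0 ≤ x y) :
    ∃ C : ℝ, 0 ≤ C ∧ ∀ (q q' : ℕ), Pth q p q' → ∀ v, Lang q v →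
      Pr q' (imP p v) x + Slk x p v ≤ Pr q v (MvP p x) + C := by
  induction p with
  | nil =>
    refine ⟨0, le_rfl, fun q q' hp v _ => ?_⟩
    have : q = q' := hp
    rw [← this]
    simp [MvP, imP, Slk]
  | cons e p ih =>
    obtain ⟨C, hC, h⟩ := ih
    have hS : 0 ≤ ∑ y, MvP p x y := Finset.sum_nonneg fun y _ => MvP_nonneg p x hx y
    refine ⟨C + 200 * ∑ y, MvP p x y, by positivity, fun q q' hp v hv => ?_⟩
    obtain ⟨hq1, hp⟩ := hp
    rw [hq1] at hv ⊢
    have h1 := h (eT e) q' hp (imw e 0 v) (Lang_imw e v hv)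
    have h2 := Pr_step e v (MvP p x) (fun y => MvP_nonneg p x hx y) hv
    have h3 := Slk_infix hx p (stp_imw e v)
    simp only [MvP, imP, Slk]
    linarith

theorem Ph_le (q : ℕ) (v : List A) (y : Fin 3) : Ph q v y ≤ 31 * (v.length + 3) := by
  have := gs_le q y (v ++ [7, 7, 7]) 0
  rw [List.length_append] at this
  exact this

theorem gw_Ph (q : ℕ) (v : List A) (y : Fin 3) : gw q y v ≤ Ph q v y := by
  unfold Ph
  match v with
  | [] => simp [gw]
  | a :: r =>
    simp only [List.cons_append, gs, gs_append, gw]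
    omega

theorem Lang_win {q : ℕ} {v : List A} (h : Lang q v) : Win (SS q) v = true := by
  have h1 : Win (SS q) ([0, 0, 0] ++ (v ++ [7, 7, 7, 7])) = true := h.1
  exact Win_left _ _ (Win_right _ _ h1)

theorem W3_CB {q : ℕ} (hq : q < 2) (r : List A) (a b c : A) (h : W3 (SS q) a b c r = true)
    (hi : Int' (a :: b :: c :: r)) : W3 (CB q) a b c r = true := by
  induction r generalizing a b c with
  | nil => rfl
  | cons z r ih =>
    simp only [W3, Bool.and_eq_true] at h ⊢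
    refine ⟨?_, ih b c z h.2 fun x hx => hi x (List.mem_cons_of_mem _ hx)⟩
    have h2 := chk_W ⟨q, hq⟩ a b c z
    unfold cW at h2
    rw [h.1] at h2
    obtain ⟨a0, a7⟩ := hi a (by simp)
    obtain ⟨b0, b7⟩ := hi b (by simp)
    obtain ⟨c0, c7⟩ := hi c (by simp)
    obtain ⟨z0, z7⟩ := hi z (by simp)
    have e1 : (b == 0) = false := by simpa using b0
    have e2 : (b == 7) = false := by simpa using b7
    have e3 : (c == 0) = false := by simpa using c0
    have e4 : (c == 7) = false := by simpa using c7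
    have e5 : (a == 0) = false := by simpa using a0
    have e6 : (a == 7) = false := by simpa using a7
    have e7 : (z == 0) = false := by simpa using z0
    have e8 : (z == 7) = false := by simpa using z7
    simp only [e1, e2, e3, e4, e5, e6, e7, e8, Bool.not_true, Bool.false_or,
      Bool.and_eq_true] at h2
    exact h2.1

theorem Lang_CB {q : ℕ} (hq : q < 2) {v : List A} (h : Lang q v) : Win (CB q) v = true := by
  have h1 := Lang_win h
  match v, h, h1 with
  | [], _, _ => rfl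
  | [_], _, _ => rfl
  | [_, _], _, _ => rfl
  | a :: b :: c :: r, h, h1 => exact W3_CB hq r a b c h1 h.2

theorem chk_letter : ∀ q : Fin 2, ∀ x : Fin 8, x ≠ 0 → x ≠ 7 →
    W3 (SS q.val) 0 0 0 [x, 7, 7, 7, 7] = true := by decide +kernel

theorem Lang_letter {q : ℕ} (hq : q < 2) (x : A) (h0 : x ≠ 0) (h7 : x ≠ 7) : Lang q [x] := by
  refine ⟨chk_letter ⟨q, hq⟩ x h0 h7, ?_⟩
  intro y hy
  rw [List.mem_singleton.1 hy]
  exact ⟨h0, h7⟩

theorem imP_append (p r : List (Fin 8)) (v : List A) : imP (p ++ r) v = imP r (imP p v) := by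
  induction p generalizing v with
  | nil => rfl
  | cons e p ih => exact ih _

theorem Pr_nonneg (q : ℕ) (v : List A) (x : Fin 3 → ℝ) (hx : ∀ y, 0 ≤ x y) : 0 ≤ Pr q v x :=
  Finset.sum_nonneg fun y _ => mul_nonneg (Nat.cast_nonneg _) (hx y)

/-- **growth** -/
theorem growth (w : List (Fin 8)) (q : ℕ) (hq : q < 2) (hw : Pth q w q) (P : PD (MP w))
    (hdet : (MP w).det = 1 ∨ (MP w).det = -1) :
    ∃ (K : ℕ) (θ B : ℝ), 1 ≤ K ∧ 1 < θ ∧ θ < P.lam ^ K ∧ 0 ≤ B ∧ ∀ x : A, x ≠ 0 → x ≠ 7 →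
      ∀ m : ℕ, ((imP (rp (rp w K) m) [x]).length : ℝ) ≤ B * θ ^ m := by
  classical
  obtain ⟨K, L, hK, hL, hhit⟩ := hit w q hq hw P hdet
  obtain ⟨W, hWd⟩ : ∃ W, W = rp w K := ⟨_, rfl⟩
  rw [← hWd] at hhit
  have hPW : Pth q W q := by rw [hWd]; exact Pth_rp hw K
  have hupos : ∀ y, 0 < P.u y := P.u_pos
  have hunn : ∀ y, 0 ≤ P.u y := fun y => (P.u_pos y).le
  obtain ⟨c, hc, hSlk⟩ := Slk_pos hupos W
  obtain ⟨C, hC, hrec⟩ := Pr_path W P.u hunn
  obtain ⟨μ, hμ, hμu⟩ : ∃ μ : ℝ, 0 < μ ∧ ∀ i, μ ≤ P.u i := by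
    obtain ⟨i0, -, hi0⟩ := Finset.exists_min_image (Finset.univ : Finset (Fin 3)) P.u
      Finset.univ_nonempty
    exact ⟨P.u i0, P.u_pos i0, fun i => hi0 i (Finset.mem_univ i)⟩
  obtain ⟨Λ, hΛ⟩ : ∃ Λ : ℝ, Λ = P.lam ^ K := ⟨_, rfl⟩
  have hΛ1 : 1 < Λ := by rw [hΛ]; exact one_lt_pow₀ P.lam_gt (by omega)
  have hMW : MvP W P.u = fun i => Λ * P.u i := by
    rw [← MP_act, hWd, MP_rp]
    funext i
    have := (P.pow K hK).M_u i
    rw [hΛ]
    exact this
  have hPrΛ : ∀ v, Pr q v (MvP W P.u) = Λ * Pr q v P.u := by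
    intro v
    rw [hMW]
    unfold Pr
    rw [Finset.mul_sum]
    refine Finset.sum_congr rfl fun y _ => ?_
    ring
  have hL0 : (0:ℝ) < L := by exact_mod_cast hL
  obtain ⟨δ, hδ⟩ : ∃ δ : ℝ, δ = c / (31 * L) := ⟨_, rfl⟩
  have hδ0 : 0 < δ := by rw [hδ]; positivity
  obtain ⟨C1, hC1⟩ : ∃ C1 : ℝ, C1 = C + c * (3 / L + 1) := ⟨_, rfl⟩
  have hC10 : 0 ≤ C1 := by rw [hC1]; positivity
  have hup : ∀ v, Pr q v P.u ≤ 31 * ((v.length : ℝ) + 3) := by
    intro v
    unfold Pr
    calc ∑ y, (Ph q v y : ℝ) * P.u y ≤ ∑ y, (31 * ((v.length : ℝ) + 3)) * P.u y := by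
          refine Finset.sum_le_sum fun y _ => mul_le_mul_of_nonneg_right ?_ (hunn y)
          exact_mod_cast Ph_le q v y
      _ = 31 * ((v.length : ℝ) + 3) := by rw [← Finset.mul_sum, P.u_sum, mul_one]
  have hlow : ∀ v, Lang q v → μ * ((v.length : ℝ) - 3) ≤ Pr q v P.u := by
    intro v hv
    have h1 := gw_ge hq v (Lang_win hv) hv.2
    have h2 := gw_Ph q v 0
    have h3 := gw_Ph q v 1
    have h4 := gw_Ph q v 2
    have h5 : (v.length : ℝ) ≤ Ph q v 0 + Ph q v 1 + Ph q v 2 + 3 := by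
      have : v.length ≤ Ph q v 0 + Ph q v 1 + Ph q v 2 + 3 := by omega
      exact_mod_cast this
    have h6 : μ * ∑ y, (Ph q v y : ℝ) ≤ Pr q v P.u := by
      unfold Pr
      rw [Finset.mul_sum]
      refine Finset.sum_le_sum fun y _ => ?_
      rw [mul_comm]
      exact mul_le_mul_of_nonneg_left (hμu y) (Nat.cast_nonneg _)
    refine le_trans (mul_le_mul_of_nonneg_left ?_ hμ.le) h6
    rw [Fin.sum_univ_three]
    linarith
  have hone : ∀ v, Lang q v → Pr q (imP W v) P.u ≤ (Λ - δ) * Pr q v P.u + C1 := by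
    intro v hv
    have h1 := hrec q q hPW v hv
    rw [hPrΛ] at h1
    have h2 := chunk hunn W (CB q) L c
      (fun u hu hW => hSlk u (hhit u hu hW)) (v.length / L) v (Nat.div_mul_le_self _ _)
      (Lang_CB hq hv)
    have h3 : (v.length : ℝ) / L - 1 ≤ ((v.length / L : ℕ) : ℝ) := by
      have h4 : v.length < (v.length / L + 1) * L := Nat.lt_mul_of_div_lt (Nat.lt_succ_self _) hL
      have h5 : (v.length : ℝ) < ((v.length / L : ℕ) + 1) * L := by exact_mod_cast h4
      rw [← div_lt_iff₀ hL0] at h5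
      linarith
    have h6 : Pr q v P.u / 31 - 3 ≤ (v.length : ℝ) := by
      have := hup v
      linarith
    have h7 : (Pr q v P.u / 31 - 3) / L ≤ (v.length : ℝ) / L :=
      div_le_div_of_nonneg_right h6 hL0.le
    have h8 : c * ((Pr q v P.u / 31 - 3) / L - 1) ≤ Slk P.u W v := by
      refine le_trans ?_ h2
      rw [mul_comm]
      refine mul_le_mul_of_nonneg_right ?_ hc.le
      linarith
    have h9 : c * ((Pr q v P.u / 31 - 3) / L - 1) = δ * Pr q v P.u - c * (3 / L + 1) := by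
      rw [hδ]
      field_simp
      ring
    rw [h9] at h8
    rw [hC1]
    linarith
  -- iteration
  obtain ⟨θ, hθ⟩ : ∃ θ : ℝ, θ = max (Λ - δ) ((1 + Λ) / 2) := ⟨_, rfl⟩
  have hθ1 : 1 < θ := by
    rw [hθ]
    exact lt_of_lt_of_le (by linarith) (le_max_right _ _)
  have hθΛ : θ < Λ := by
    rw [hθ]
    exact max_lt (by linarith) (by linarith)
  have hrp' : ∀ m : ℕ, ∀ v, imP (rp W (m + 1)) v = imP W (imP (rp W m) v) := by
    intro m v
    have : rp W (m + 1) = rp W m ++ W := by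
      rw [rp_add]
      simp [rp]
    rw [this, imP_append]
  obtain ⟨B, hB⟩ : ∃ B : ℝ, B = 124 + C1 / (θ - 1) := ⟨_, rfl⟩
  have hiter : ∀ x : A, x ≠ 0 → x ≠ 7 → ∀ m : ℕ, Lang q (imP (rp W m) [x]) ∧
      Pr q (imP (rp W m) [x]) P.u + C1 / (θ - 1) ≤ B * θ ^ m := by
    intro x h0 h7 m
    induction m with
    | zero =>
      refine ⟨Lang_letter hq x h0 h7, ?_⟩
      have := hup [x]
      simp only [rp, imP, pow_zero, mul_one]
      rw [hB]
      simp only [List.length_singleton] at this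
      push_cast at this
      linarith
    | succ m ih =>
      obtain ⟨ih1, ih2⟩ := ih
      rw [hrp']
      refine ⟨Lang_imP W q q hPW _ ih1, ?_⟩
      have h1 := hone _ ih1
      have h2 : (Λ - δ) * Pr q (imP (rp W m) [x]) P.u ≤ θ * Pr q (imP (rp W m) [x]) P.u := by
        refine mul_le_mul_of_nonneg_right ?_ (Pr_nonneg _ _ _ hunn)
        rw [hθ]
        exact le_max_left _ _
      have h3 : C1 + C1 / (θ - 1) = θ * (C1 / (θ - 1)) := by
        have : θ - 1 ≠ 0 := by linarith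
        field_simp
        ring
      have h4 := mul_le_mul_of_nonneg_left ih2 (by linarith : (0:ℝ) ≤ θ)
      rw [pow_succ]
      linarith
  have hB0 : 0 ≤ B := by
    rw [hB]
    have : 0 ≤ C1 / (θ - 1) := div_nonneg hC10 (by linarith)
    linarith
  refine ⟨K, θ, B / μ + 3, hK, hθ1, by rw [← hΛ]; exact hθΛ, by positivity, fun x h0 h7 m => ?_⟩
  rw [← hWd]
  obtain ⟨g1, g2⟩ := hiter x h0 h7 m
  have g3 := hlow _ g1
  have g4 : 0 ≤ C1 / (θ - 1) := div_nonneg hC10 (by linarith)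
  have g5 : ((imP (rp W m) [x]).length : ℝ) ≤ B * θ ^ m / μ + 3 := by
    rw [← sub_le_iff_le_add, le_div_iff₀ hμ]
    linarith
  have g6 : 1 ≤ θ ^ m := one_le_pow₀ hθ1.le
  have g7 : (B / μ + 3) * θ ^ m = B * θ ^ m / μ + 3 * θ ^ m := by ring
  rw [g7]
  linarith

end Pool.Agent.Helper65.DG
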