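import Pool.Agent.Helper65.DG.Chk
import Pool.Agent.Helper65.DG.ChkR
import Pool.Agent.Helper65.DG.ChkS

/-! consequences of the checks -/

set_option autoImplicit false

namespace Pool.Agent.Helper65.DG

theorem eS_lt (e : Fin 8) : eS e < 2 := by revert e; decide
theorem eT_lt (e : Fin 8) : eT e < 2 := by revert e; decide

structure WD (e : Fin 8) (a b c z : A) : Prop where
  dom : ∀ y, rhs e y a b c z + pot e y (cd3 b c z) ≤ lhs e y b c + pot e y (cd3 a b c)
  tig : (∀ y, sl e y a b c z = 0) → (TG e).testBit (cd a b c z) = true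
  ne : out e a b c ≠ [] ∨ out e b c z ≠ []
  lst : (out e b c z).getLastD (lst e a b c) = lst e b c z

theorem nil?_false {l : List A} (h : nil? l = false) : l ≠ [] := by
  rintro rfl
  simp [nil?] at h

theorem wd (e : Fin 8) (a b c z : A) (h : (SS (eS e)).testBit (cd a b c z) = true) :
    WD e a b c z := by
  have h1 := chk_D e a b c z
  unfold cD at h1
  rw [h] at h1
  simp only [Bool.not_true, Bool.false_or, Bool.and_eq_true, Bool.or_eq_true,
    decide_eq_true_eq, Bool.not_eq_true', cDy] at h1
  obtain ⟨⟨⟨⟨⟨h0, h1'⟩, h2⟩, h3⟩, h4⟩, h5⟩ := h1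
  refine ⟨?_, ?_, ?_, h5⟩
  · intro y
    fin_cases y
    · exact Nat.le_of_ble_eq_true h0
    · exact Nat.le_of_ble_eq_true h1'
    · exact Nat.le_of_ble_eq_true h2
  · intro hs
    rcases h3 with h3 | h3
    · rw [hs 0, hs 1, hs 2] at h3
      simp at h3
    · exact h3
  · rcases h4 with h4 | h4
    · exact Or.inl (nil?_false h4)
    · exact Or.inr (nil?_false h4)

theorem gs_append (q : ℕ) (y : Fin 3) (l r : List A) (a : A) :
    gs q y a (l ++ r) = gs q y a l + gs q y (l.getLastD a) r := by
  induction l generalizing a with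
  | nil => simp [gs]
  | cons b l ih =>
    simp only [List.cons_append, gs, ih b, List.getLastD_cons]
    omega

def slS (e : Fin 8) (y : Fin 3) : A → A → A → List A → ℕ
  | _, _, _, [] => 0
  | a, b, c, z :: r => sl e y a b c z + slS e y b c z r

def slW (e : Fin 8) (y : Fin 3) : List A → ℕ
  | a :: b :: c :: r => slS e y a b c r
  | _ => 0

def cg (e : Fin 8) (y : Fin 3) : A → A → List A → ℕ
  | _, _, [] => 0
  | b, c, z :: r => lhs e y b c + cg e y c z r

def endc : A → A → A → List A → ℕ
  | a, b, c, [] => cd3 a b c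
  | _, b, c, z :: r => endc b c z r

theorem dom (e : Fin 8) (y : Fin 3) (r : List A) (a b c : A)
    (h : W3 (SS (eS e)) a b c r = true) :
    gs (eT e) (pY e y) (lst e a b c) (emit e b c r) + pot e y (endc a b c r) + slS e y a b c r =
      cg e y b c r + pot e y (cd3 a b c) := by
  induction r generalizing a b c with
  | nil => simp [gs, emit, endc, slS, cg]
  | cons z r ih =>
    simp only [W3, Bool.and_eq_true] at h
    have hw := wd e a b c z h.1
    have h1 := ih b c z h.2
    have h2 := hw.dom y
    simp only [emit, gs_append, hw.lst, endc, slS, cg]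
    have h3 : sl e y a b c z = (lhs e y b c + pot e y (cd3 a b c)) -
      (rhs e y a b c z + pot e y (cd3 b c z)) := rfl
    have h4 : rhs e y a b c z = gs (eT e) (pY e y) (lst e a b c) (out e b c z) := rfl
    omega

theorem slS_zero_TG (e : Fin 8) (r : List A) (a b c : A)
    (h : W3 (SS (eS e)) a b c r = true) (h0 : ∀ y, slS e y a b c r = 0) :
    W3 (TG e) a b c r = true := by
  induction r generalizing a b c with
  | nil => rfl
  | cons z r ih =>
    simp only [W3, Bool.and_eq_true] at h ⊢
    have hw := wd e a b c z h.1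
    refine ⟨hw.tig fun y => ?_, ih b c z h.2 fun y => ?_⟩
    · have := h0 y
      simp only [slS] at this
      omega
    · have := h0 y
      simp only [slS] at this
      omega

theorem slW_zero_TG (e : Fin 8) (u : List A)
    (h : Win (SS (eS e)) u = true) (h0 : ∀ y, slW e y u = 0) :
    Win (TG e) u = true := by
  match u, h, h0 with
  | [], _, _ => rfl
  | [_], _, _ => rfl
  | [_, _], _, _ => rfl
  | a :: b :: c :: r, h, h0 => exact slS_zero_TG e r a b c h h0

/-- emission is at least half as long -/
theorem emit_ge (e : Fin 8) : ∀ (n : ℕ) (r : List A) (a b : A), r.length ≤ n →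
    Win (SS (eS e)) (a :: b :: r) = true → r.length ≤ 2 * (emit e a b r).length + 1 := by
  intro n
  induction n using Nat.strong_induction_on with
  | _ n ih =>
    intro r a b hn h
    match r, hn, h with
    | [], _, _ => simp
    | [_], _, _ => simp
    | z :: z' :: r, hn, h =>
      have h' := h
      rw [Win_cons4, Bool.and_eq_true] at h
      have hw := wd e a b z z' h.1
      have h1 := ih (n - 2) (by simp only [List.length_cons] at hn; omega) r z z'
        (by simp only [List.length_cons] at hn; omega) (Win_tail h.2)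
      simp only [emit, List.length_append, List.length_cons] at h1 ⊢
      have h2 : 1 ≤ (out e a b z).length + (out e b z z').length := by
        rcases hw.ne with h3 | h3
        · have := List.length_pos_of_ne_nil h3
          omega
        · have := List.length_pos_of_ne_nil h3
          omega
      omega

theorem stp_ge (e : Fin 8) (u : List A) (h : Win (SS (eS e)) u = true) :
    u.length ≤ 2 * (stp e u).length + 3 := by
  match u, h with
  | [], _ => simp
  | [_], _ => simp
  | a :: b :: r, h =>
    have := emit_ge e r.length r a b le_rfl h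
    rw [stp_two]
    simp only [List.length_cons]
    omega

/-! superadditivity of the slack -/

theorem slW_cons (e : Fin 8) (y : Fin 3) (a : A) (w : List A) :
    slW e y w ≤ slW e y (a :: w) := by
  match w with
  | [] => simp [slW]
  | [_] => simp [slW]
  | [_, _] => simp [slW]
  | b :: c :: z :: r =>
    simp only [slW, slS]
    omega

theorem slW_right (e : Fin 8) (y : Fin 3) (l r : List A) : slW e y r ≤ slW e y (l ++ r) := by
  induction l with
  | nil => simp
  | cons a l ih => exact ih.trans (slW_cons e y a _)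

theorem slW_append (e : Fin 8) (y : Fin 3) (l r : List A) :
    slW e y l + slW e y r ≤ slW e y (l ++ r) := by
  induction l with
  | nil => simp [slW]
  | cons a l ih =>
    match l, ih with
    | [], _ => simpa [slW] using slW_right e y [a] r
    | [b], _ => simpa [slW] using slW_right e y [a, b] r
    | [b, c], _ =>
      have := slW_right e y [a, b, c] r
      simpa [slW, slS] using this
    | b :: c :: z :: l, ih =>
      simp only [slW, slS, List.cons_append] at ih ⊢
      omega

theorem emit_append (e : Fin 8) (l r : List A) (a b : A) :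
    ∃ x y, emit e a b (l ++ r) = emit e a b l ++ emit e x y r := by
  induction l generalizing a b with
  | nil => exact ⟨a, b, rfl⟩
  | cons z l ih =>
    obtain ⟨x, y, h⟩ := ih b z
    exact ⟨x, y, by simp only [List.cons_append, emit, h, List.append_assoc]⟩

theorem stp_append (e : Fin 8) (l r : List A) :
    ∃ m, stp e (l ++ r) = stp e l ++ m ++ stp e r := by
  match l with
  | [] => exact ⟨[], rfl⟩
  | [a] =>
    obtain ⟨m, hm⟩ := stp_suffix e [a] r
    exact ⟨m, by rw [← hm]; rfl⟩
  | a :: b :: l =>
    obtain ⟨x, y, h⟩ := emit_append e l r a b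
    obtain ⟨m, hm⟩ := stp_suffix e [x, y] r
    refine ⟨m, ?_⟩
    simp only [List.cons_append, stp_two]
    rw [h, List.append_assoc, hm]
    rfl

/-! slack-free words and tracking -/

/-- no slack along the path -/
def SF : List (Fin 8) → List A → Prop
  | [], _ => True
  | e :: p, u => (∀ y, slW e y u = 0) ∧ SF p (stp e u)

theorem SF_infix (p : List (Fin 8)) {u v : List A} (h : u <:+: v) (hv : SF p v) : SF p u := by
  induction p generalizing u v with
  | nil => trivial
  | cons e p ih =>
    refine ⟨fun y => ?_, ih (stp_infix h) hv.2⟩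
    obtain ⟨a, b, rfl⟩ := h
    have h1 := hv.1 y
    have h2 := slW_append e y (a ++ u) b
    have h3 := slW_append e y a u
    omega

/-- tracked words along the path -/
def Q : List (Fin 8) → ℕ → List A → Prop
  | [], s, u => Win (CB s) u = true
  | e :: p, s, u => Win (CB s) u = true ∧ (∀ y, slW e y u = 0) ∧
      ∃ t, okst e s t = true ∧ Q p t (stp e u)

theorem Q_infix (p : List (Fin 8)) {u v : List A} (s : ℕ) (h : u <:+: v) (hv : Q p s v) :
    Q p s u := by
  induction p generalizing u v s with
  | nil => exact Win_infix h hv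
  | cons e p ih =>
    obtain ⟨h1, h2, t, h3, h4⟩ := hv
    refine ⟨Win_infix h h1, fun y => ?_, t, h3, ih t (stp_infix h) h4⟩
    obtain ⟨a, b, rfl⟩ := h
    have h1 := h2 y
    have h2 := slW_append e y (a ++ u) b
    have h3 := slW_append e y a u
    omega

theorem CB_S {s : ℕ} (hs : s < 16) {u : List A} (h : Win (CB s) u = true) :
    Win (SS (sQ s)) u = true := Win_mono (chk_CB ⟨s, hs⟩) u h

/-- paths -/
def Pth : ℕ → List (Fin 8) → ℕ → Prop
  | q, [], q' => q = q'
  | q, e :: p, q' => q = eS e ∧ Pth (eT e) p q'

theorem Qex (p : List (Fin 8)) : ∀ (q q' : ℕ), Pth q p q' → ∀ s < 16, sQ s = q → ∀ L : ℕ,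
    ∃ L0, ∀ u : List A, L0 ≤ u.length → Win (CB s) u = true → SF p u →
    ∃ u', u' <:+: u ∧ L ≤ u'.length ∧ Q p s u' := by
  induction p with
  | nil =>
    intro q q' _ s _ _ L
    exact ⟨L, fun u hu hW _ => ⟨u, List.infix_refl u, hu, hW⟩⟩
  | cons e p ih =>
    intro q q' hp s hs hsq L
    obtain ⟨hq, hp⟩ := hp
    -- a common length for all successors
    have hL1 : ∃ L1, ∀ t < 16, sQ t = eT e → ∀ u : List A, L1 ≤ u.length →
        Win (CB t) u = true → SF p u → ∃ u', u' <:+: u ∧ 2 * L + 5 ≤ u'.length ∧ Q p t u' := by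
      have h1 : ∀ t : ℕ, ∃ L1, t < 16 → sQ t = eT e → ∀ u : List A, L1 ≤ u.length →
          Win (CB t) u = true → SF p u →
          ∃ u', u' <:+: u ∧ 2 * L + 5 ≤ u'.length ∧ Q p t u' := by
        intro t
        by_cases ht : t < 16 ∧ sQ t = eT e
        · obtain ⟨L1, h⟩ := ih (eT e) q' hp t ht.1 ht.2 (2 * L + 5)
          exact ⟨L1, fun _ _ => h⟩
        · exact ⟨0, fun h1 h2 => absurd ⟨h1, h2⟩ ht⟩
      choose f hf using h1
      refine ⟨∑ t ∈ Finset.range 16, f t, fun t ht hq u hu => hf t ht hq u ?_⟩
      exact (Finset.single_le_sum (fun i _ => Nat.zero_le (f i)) (Finset.mem_range.2 ht)).trans hu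
    obtain ⟨L1, hL1⟩ := hL1
    have hc := chk_S ⟨s, hs⟩ e (by rw [← hq, ← hsq])
    unfold cS at hc
    rw [Bool.and_eq_true] at hc
    refine ⟨16 * (2 * L1 + 4) + 4, fun u hu hW hSF => ?_⟩
    have hWS : Win (SS (eS e)) u = true := by
      rw [← hq, ← hsq]
      exact CB_S hs hW
    have hT := slW_zero_TG e u hWS hSF.1
    obtain ⟨t, ht, r, hr, hrl, hrW⟩ := track hc.1 hc.2 (2 * L1 + 4) (by omega) u hu
      (Win_and u hW hT)
    have ht' := ht
    unfold okst at ht
    simp only [Bool.and_eq_true] at ht
    have ht16 : t < 16 := by simpa [Nat.blt_eq] using ht.1.1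
    have htq : sQ t = eT e := Nat.eq_of_beq_eq_true ht.1.2
    have hrS : Win (SS (eS e)) r = true := Win_infix hr hWS
    have hlen := stp_ge e r hrS
    obtain ⟨v, hv1, hv2, hv3⟩ := hL1 t ht16 htq (stp e r) (by omega) hrW
      (SF_infix p (stp_infix hr) hSF.2)
    obtain ⟨r', g1, g2, g3⟩ := pullback hv1
    refine ⟨r', g1.trans hr, by omega, Win_infix (g1.trans hr) hW, fun y => ?_, t, ht',
      Q_infix p t g2 hv3⟩
    exact (SF_infix (e :: p) (g1.trans hr) hSF).1 y

end Pool.Agent.Helper65.DG
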