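import Pool.Agent.Helper65.PF.Main

/-! the class of products (definitions of the statement) -/

set_option autoImplicit false

namespace Pool.Agent.Helper65.DG
open Pool.Agent.H812R2.PI

/-- the substitution `j ↦ ij`, other letters fixed -/
def lft (i j : Fin 3) : Fin 3 → List (Fin 3) := fun x => if x = j then [i, j] else [x]

/-- the substitution `j ↦ ji`, other letters fixed -/
def rgt (i j : Fin 3) : Fin 3 → List (Fin 3) := fun x => if x = j then [j, i] else [x]

/-- `Walk r l τ r' l'`: `τ` is the product of the substitutions along a path from the pair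
`(r, l)` to the pair `(r', l')`. A left step `lft i r` replaces `r` by the third letter `k`,
a right step `rgt i l` replaces `l` by the third letter `k`. -/
inductive Walk : Fin 3 → Fin 3 → (Fin 3 → List (Fin 3)) → Fin 3 → Fin 3 → Prop
  | refl (r l : Fin 3) : Walk r l (fun x => [x]) r l
  | left {r l r' l' : Fin 3} {τ : Fin 3 → List (Fin 3)} (i k : Fin 3) (h1 : i ≠ r) (h2 : k ≠ r)
      (h3 : k ≠ i) (h : Walk k l τ r' l') : Walk r l (comp (lft i r) τ) r' l'
  | right {r l r' l' : Fin 3} {τ : Fin 3 → List (Fin 3)} (i k : Fin 3) (h1 : i ≠ l) (h2 : k ≠ l)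
      (h3 : k ≠ i) (h : Walk r k τ r' l') : Walk r l (comp (rgt i l) τ) r' l'

end Pool.Agent.Helper65.DG
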