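import Pool.Agent.Helper65.DG.Grp
import Pool.Agent.Helper65.DG.WalkDefs

/-! normalisation of the paths -/

set_option autoImplicit false

namespace Pool.Agent.Helper65.DG
open Pool.Agent.H812R2.PI Pool.Agent.Helper65.PF

def qY (e : Fin 8) (c : Fin 3) : Fin 3 := if pY e 0 = c then 0 else if pY e 1 = c then 1 else 2

theorem qY_pY : ∀ (e : Fin 8) (y : Fin 3), qY e (pY e y) = y := by decide +kernel
theorem pY_qY : ∀ (e : Fin 8) (c : Fin 3), pY e (qY e c) = c := by decide +kernel

def sub (e : Fin 8) (c : Fin 3) : List (Fin 3) :=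
  if qY e c = jY e then (if eK e = 0 then [iY e, qY e c] else [qY e c, iY e]) else [qY e c]

theorem inc_sub (e : Fin 8) : inc (sub e) = Mm e := by
  have : ∀ (e : Fin 8) (y c : Fin 3), (((sub e c).count y : ℕ) : ℤ) =
      (if c = pY e y then 1 else 0) + if y = iY e ∧ c = pY e (jY e) then 1 else 0 := by
    decide +kernel
  ext y c
  exact this e y c

def subP : List (Fin 8) → Fin 3 → List (Fin 3)
  | [] => fun a => [a]
  | e :: p => comp (sub e) (subP p)

theorem inc_subP (p : List (Fin 8)) : inc (subP p) = MP p := by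
  induction p with
  | nil =>
    ext i j
    simp only [subP, inc, MP, Matrix.one_apply]
    by_cases h : i = j
    · simp [h]
    · simp [h, Ne.symm h]
  | cons e p ih => rw [subP, inc_comp, inc_sub, ih, MP]

theorem det_Mm : ∀ e : Fin 8, (Mm e).det = 1 ∨ (Mm e).det = -1 := by
  intro e
  rw [Matrix.det_fin_three]
  revert e
  decide +kernel

theorem det_MP (p : List (Fin 8)) : (MP p).det = 1 ∨ (MP p).det = -1 := by
  induction p with
  | nil => left; simp [MP]
  | cons e p ih =>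
    rw [MP, Matrix.det_mul]
    rcases det_Mm e with h | h <;> rcases ih with h' | h' <;> rw [h, h'] <;> simp

theorem endo_sub_psi (e : Fin 8) (x : FreeGroup (Fin 3)) : endo (sub e) (psi e x) = x := by
  have h : (endo (sub e)).comp (psi e) = MonoidHom.id _ := by
    refine FreeGroup.ext_hom _ _ fun y => ?_
    have : ∀ (e : Fin 8) (y : Fin 3), endo (sub e) (psiI e y) = FreeGroup.of y := by
      decide +kernel
    rw [MonoidHom.comp_apply, MonoidHom.id_apply, psi, FreeGroup.lift_apply_of]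
    exact this e y
  exact DFunLike.congr_fun h x

theorem endo_comp (S T : Fin 3 → List (Fin 3)) (x : FreeGroup (Fin 3)) :
    endo (comp S T) x = endo S (endo T x) := by
  have h : endo (comp S T) = (endo S).comp (endo T) := by
    refine FreeGroup.ext_hom _ _ fun a => ?_
    rw [MonoidHom.comp_apply, endo_of, endo_of, endo_wd]
    rfl
  rw [h]
  rfl

/-- the inverse of the product along a path -/
def psiH : List (Fin 8) → FreeGroup (Fin 3) →* FreeGroup (Fin 3)
  | [] => MonoidHom.id _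
  | e :: p => (psiH p).comp (psi e)

theorem psiH_apply (p : List (Fin 8)) (x : FreeGroup (Fin 3)) : psiH p x = psiP p x := by
  induction p generalizing x with
  | nil => rfl
  | cons e p ih => exact ih _

theorem endo_subP_psi (p : List (Fin 8)) (x : FreeGroup (Fin 3)) :
    endo (subP p) (psiH p x) = x := by
  induction p generalizing x with
  | nil =>
    have h : endo (subP []) = MonoidHom.id _ := by
      refine FreeGroup.ext_hom _ _ fun a => ?_
      rw [endo_of]
      simp [subP, Pool.Agent.Helper65.PF.wd]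
    rw [h]
    rfl
  | cons e p ih =>
    rw [subP, endo_comp]
    have : psiH (e :: p) x = psiH p (psi e x) := rfl
    rw [this, ih, endo_sub_psi]

theorem psiH_append (p r : List (Fin 8)) (x : FreeGroup (Fin 3)) :
    psiH (p ++ r) x = psiH r (psiH p x) := by
  induction p generalizing x with
  | nil => rfl
  | cons e p ih =>
    exact ih _

/-- compatibility of a relabelling with the normal form of a pair -/
def Nm (q : ℕ) (ρ : Fin 3 → Fin 3) (r l : Fin 3) : Prop :=
  (q = 0 ∧ ρ r = 2 ∧ ρ l = 0) ∨ (q = 1 ∧ ρ r = 1 ∧ ρ l = 1)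

instance (q : ℕ) (ρ : Fin 3 → Fin 3) (r l : Fin 3) : Decidable (Nm q ρ r l) := by
  unfold Nm
  infer_instance

theorem left_norm : ∀ (ρ : Fin 3 → Fin 3), Function.Injective ρ → ∀ (q : Fin 2)
    (r l i k : Fin 3), i ≠ r → k ≠ r → k ≠ i → Nm q.val ρ r l →
    ∃ e : Fin 8, q.val = eS e ∧ Nm (eT e) (fun a => pY e (ρ a)) k l ∧
      ∀ a, (lft i r a).map ρ = sub e (pY e (ρ a)) := by decide +kernel

theorem right_norm : ∀ (ρ : Fin 3 → Fin 3), Function.Injective ρ → ∀ (q : Fin 2)
    (r l i k : Fin 3), i ≠ l → k ≠ l → k ≠ i → Nm q.val ρ r l →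
    ∃ e : Fin 8, q.val = eS e ∧ Nm (eT e) (fun a => pY e (ρ a)) r k ∧
      ∀ a, (rgt i l a).map ρ = sub e (pY e (ρ a)) := by decide +kernel

theorem Nm_lt {q : ℕ} {ρ : Fin 3 → Fin 3} {r l : Fin 3} (h : Nm q ρ r l) : q < 2 := by
  rcases h with h | h <;> omega

theorem pY_inj (e : Fin 8) {ρ : Fin 3 → Fin 3} (h : Function.Injective ρ) :
    Function.Injective fun a => pY e (ρ a) := (pY_bij e).1.comp h

theorem Walk_norm {r l r' l' : Fin 3} {τ : Fin 3 → List (Fin 3)} (h : Walk r l τ r' l') :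
    ∀ (q : ℕ) (ρ : Fin 3 → Fin 3), Function.Injective ρ → Nm q ρ r l →
    ∃ (p : List (Fin 8)) (q' : ℕ) (ρ' : Fin 3 → Fin 3), Function.Injective ρ' ∧ Pth q p q' ∧
      Nm q' ρ' r' l' ∧ ∀ a, (τ a).map ρ = subP p (ρ' a) := by
  induction h with
  | refl r l =>
    intro q ρ hρ hN
    exact ⟨[], q, ρ, hρ, rfl, hN, fun a => rfl⟩
  | left i k h1 h2 h3 h ih =>
    intro q ρ hρ hN
    obtain ⟨e, he, hN1, hmap⟩ := left_norm ρ hρ ⟨q, Nm_lt hN⟩ _ _ i k h1 h2 h3 hN
    obtain ⟨p, q', ρ', g1, g2, g3, g4⟩ := ih (eT e) _ (pY_inj e hρ) hN1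
    refine ⟨e :: p, q', ρ', g1, ⟨he, g2⟩, g3, fun a => ?_⟩
    simp only [comp, ext, subP]
    rw [← g4, List.map_flatMap, List.flatMap_map]
    exact congrArg (fun f => List.flatMap f _) (funext fun x => hmap x)
  | right i k h1 h2 h3 h ih =>
    intro q ρ hρ hN
    obtain ⟨e, he, hN1, hmap⟩ := right_norm ρ hρ ⟨q, Nm_lt hN⟩ _ _ i k h1 h2 h3 hN
    obtain ⟨p, q', ρ', g1, g2, g3, g4⟩ := ih (eT e) _ (pY_inj e hρ) hN1
    refine ⟨e :: p, q', ρ', g1, ⟨he, g2⟩, g3, fun a => ?_⟩
    simp only [comp, ext, subP]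
    rw [← g4, List.map_flatMap, List.flatMap_map]
    exact congrArg (fun f => List.flatMap f _) (funext fun x => hmap x)

theorem start_norm : ∀ r l : Fin 3, r ≠ l → ∃ ρ : Fin 3 → Fin 3, Function.Injective ρ ∧
    Nm 0 ρ r l := by decide +kernel

theorem agree : ∀ f g : Fin 3 → Fin 3, Function.Injective f → Function.Injective g →
    ∀ r l : Fin 3, r ≠ l → f r = g r → f l = g l → ∀ a, f a = g a := by decide +kernel

/-- closed paths in normal form -/
theorem Walk_closed {r l : Fin 3} {τ : Fin 3 → List (Fin 3)} (π : Equiv.Perm (Fin 3))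
    (hrl : r ≠ l) (h : Walk r l τ (π r) (π l)) :
    ∃ (p : List (Fin 8)) (ρ : Fin 3 → Fin 3), Function.Injective ρ ∧ Pth 0 p 0 ∧
      ∀ a, (τ (π a)).map ρ = subP p (ρ a) := by
  obtain ⟨ρ, hρ, hN⟩ := start_norm r l hrl
  obtain ⟨p, q', ρ', g1, g2, g3, g4⟩ := Walk_norm h 0 ρ hρ hN
  rcases hN with ⟨-, h1, h2⟩ | ⟨h0, -, -⟩
  · rcases g3 with ⟨k0, k1, k2⟩ | ⟨-, k1, k2⟩
    · refine ⟨p, ρ, hρ, by rw [← k0]; exact k0 ▸ g2, fun a => ?_⟩
      rw [g4]
      have := agree (fun a => ρ' (π a)) ρ (g1.comp π.injective) hρ r l hrl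
        (k1.trans h1.symm) (k2.trans h2.symm) a
      exact congrArg (subP p) this
    · exact absurd (π.injective (g1 (k1.trans k2.symm))) hrl
  · exact absurd h0 (by norm_num)

end Pool.Agent.Helper65.DG
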